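import Mathlib

set_option autoImplicit false

/-! Escape of the outer body above the parabolic energy: the scalar differential inequalities.
`W = |X| ^ 2`, `P = ⟨X, X'⟩`, `V = |X'| ^ 2`, `A = ⟨X, X''⟩`, `B = ⟨X', X''⟩`, `r` the distance of
the pair, `ψ` the speed of the time. -/

namespace Pool.Agent.H239.NBS

open Set Filter Topology

/-- continuous induction -/
theorem boot {ι : Type} [Finite ι] (g : ι → ℝ → ℝ) (hg : ∀ α, Continuous (g α))
    (h0 : ∀ α, 0 < g α 0)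
    (h : ∀ T, 0 ≤ T → (∀ s, 0 ≤ s → s ≤ T → ∀ α, 0 ≤ g α s) → ∀ α, 0 < g α T) :
    ∀ s, 0 ≤ s → ∀ α, 0 < g α s := by
  by_contra hcon
  push Not at hcon
  obtain ⟨t, ht, α, hα⟩ := hcon
  obtain ⟨Z, hZ⟩ : ∃ Z : Set ℝ, Z = Ici 0 ∩ ⋃ α, {t | g α t ≤ 0} := ⟨_, rfl⟩
  have hcl : IsClosed Z := by
    rw [hZ]
    exact isClosed_Ici.inter (isClosed_iUnion_of_finite fun α =>
      isClosed_le (hg α) continuous_const)
  have hne : Z.Nonempty := by
    rw [hZ]
    exact ⟨t, ht, mem_iUnion.2 ⟨α, hα⟩⟩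
  have hbd : BddBelow Z := by
    rw [hZ]
    exact ⟨0, fun x hx => hx.1⟩
  have hT := hcl.csInf_mem hne hbd
  obtain ⟨T, hTT⟩ : ∃ T, T = sInf Z := ⟨_, rfl⟩
  rw [← hTT] at hT
  have hlow : ∀ s, 0 ≤ s → s < T → ∀ β, 0 < g β s := by
    intro s hs hsT β
    by_contra hc
    have : s ∈ Z := by
      rw [hZ]
      exact ⟨hs, mem_iUnion.2 ⟨β, not_lt.1 hc⟩⟩
    have h1 := csInf_le hbd this
    rw [← hTT] at h1
    linarith
  have hT2 := hT
  rw [hZ] at hT2
  obtain ⟨hT0, hTα⟩ := hT2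
  obtain ⟨β, hβ⟩ := mem_iUnion.1 hTα
  have hT0' : (0 : ℝ) ≤ T := hT0
  have hall : ∀ s, 0 ≤ s → s ≤ T → ∀ γ, 0 ≤ g γ s := by
    intro s hs hsT γ
    rcases hsT.eq_or_lt with rfl | hlt
    · rcases hT0'.eq_or_lt with h1 | h1
      · rw [← h1]
        exact (h0 γ).le
      · have h2 : closure (Ico 0 s) ⊆ {t | 0 ≤ g γ t} :=
          closure_minimal (fun u hu => (hlow u hu.1 hu.2 γ).le)
            (isClosed_le continuous_const (hg γ))
        rw [closure_Ico h1.ne] at h2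
        exact h2 ⟨hs, le_rfl⟩
    · exact (hlow s hs hlt γ).le
  have hfin := h T hT0' hall β
  have : g β T ≤ 0 := hβ
  linarith

/-- the algebraic inequality behind the monotonicity of `Q` -/
theorem alg (ρ v P A B M R ψ : ℝ) (hρ : 0 < ρ) (hv : 0 < v) (hM : 0 < M) (hψ : 0 < ψ)
    (hP : 0 ≤ P) (hcs : P ≤ ρ * v) (hMv : 2 * M ≤ ρ * v ^ 2) (hR : 20 * R ≤ ρ) (hR0 : 0 ≤ R)
    (hA : -(M / ρ) - 10 * M * R ^ 2 / ρ ^ 3 ≤ A)
    (hB : |B + M * P / ρ ^ 3| ≤ v * (10 * M * R ^ 2 / ρ ^ 4)) :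
    0 ≤ ψ * (B + M * P / ρ ^ 3) - 30 * M * R ^ 2 *
      (-(3 * (ψ * P / ρ) / ρ ^ 4) * (2 - P / (ρ * v)) - 1 / ρ ^ 3 *
        (ψ * ((v ^ 2 + A) / (ρ * v) - P ^ 2 / (ρ ^ 3 * v) - P * B / (ρ * v ^ 3)))) := by
  obtain ⟨b, hb⟩ : ∃ b, b = B + M * P / ρ ^ 3 := ⟨_, rfl⟩
  have hBb : B = b - M * P / ρ ^ 3 := by rw [hb]; ring
  rw [← hb] at hB
  obtain ⟨C, hC⟩ : ∃ C, C = P / (ρ * v) := ⟨_, rfl⟩
  have hPC : P = C * (ρ * v) := by rw [hC]; field_simp
  have hC0 : 0 ≤ C := by rw [hC]; positivity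
  have hC1 : C ≤ 1 := by rw [hC, div_le_one (by positivity)]; exact hcs
  obtain ⟨e, he⟩ : ∃ e, e = R ^ 2 / ρ ^ 2 := ⟨_, rfl⟩
  have he0 : 0 ≤ e := by rw [he]; positivity
  have he1 : 400 * e ≤ 1 := by
    rw [he, ← mul_div_assoc, div_le_one (by positivity)]
    have : (20 * R) ^ 2 ≤ ρ ^ 2 := pow_le_pow_left₀ (by positivity) hR 2
    linarith [this]
  obtain ⟨hb1, hb2⟩ := abs_le.1 hB
  -- the quantity in the bracket
  have key : (1 - C ^ 2) * (v / (2 * ρ)) - 10 * v * e / ρ ≤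
      (v ^ 2 + A) / (ρ * v) - P ^ 2 / (ρ ^ 3 * v) - P * B / (ρ * v ^ 3) := by
    have e1 : (v ^ 2 + A) / (ρ * v) - P ^ 2 / (ρ ^ 3 * v) - P * B / (ρ * v ^ 3) =
        v / ρ - C ^ 2 * v / ρ + C ^ 2 * M / (ρ ^ 2 * v) + A / (ρ * v) - C * b / v ^ 2 := by
      rw [hBb, hPC]
      field_simp
      ring
    rw [e1]
    have e2 : (-(M / ρ) - 10 * M * R ^ 2 / ρ ^ 3) / (ρ * v) ≤ A / (ρ * v) := by gcongr
    have e3 : (-(M / ρ) - 10 * M * R ^ 2 / ρ ^ 3) / (ρ * v) =
        -(M / (ρ ^ 2 * v)) - 10 * (M * e / (ρ ^ 2 * v)) := by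
      rw [he]; field_simp
    rw [e3] at e2
    have e4 : M / (ρ ^ 2 * v) ≤ v / (2 * ρ) := by
      rw [div_le_div_iff₀ (by positivity) (by positivity)]
      have h1 : ρ * (2 * M) ≤ ρ * (ρ * v ^ 2) := by gcongr
      linarith [h1]
    have e5 : M * e / (ρ ^ 2 * v) = e * (M / (ρ ^ 2 * v)) := by ring
    have e6 : C * b / v ^ 2 ≤ 5 * v * e / ρ := by
      have h1 : C * b ≤ 1 * (v * (10 * M * R ^ 2 / ρ ^ 4)) := by
        have h2 : C * b ≤ C * (v * (10 * M * R ^ 2 / ρ ^ 4)) := by gcongr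
        have h3 : C * (v * (10 * M * R ^ 2 / ρ ^ 4)) ≤ 1 * (v * (10 * M * R ^ 2 / ρ ^ 4)) := by
          gcongr
        linarith
      have h4 : C * b / v ^ 2 ≤ 1 * (v * (10 * M * R ^ 2 / ρ ^ 4)) / v ^ 2 := by gcongr
      have h5 : 1 * (v * (10 * M * R ^ 2 / ρ ^ 4)) / v ^ 2 = 10 * e * (M / (ρ ^ 2 * v)) := by
        rw [he]; field_simp
      rw [h5] at h4
      have h6 : 10 * e * (M / (ρ ^ 2 * v)) ≤ 10 * e * (v / (2 * ρ)) := by gcongr
      have h7 : 10 * e * (v / (2 * ρ)) = 5 * v * e / ρ := by field_simp; ring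
      linarith
    have e7 : e * (M / (ρ ^ 2 * v)) ≤ e * (v / (2 * ρ)) := by gcongr
    have e8 : e * (v / (2 * ρ)) = v * e / ρ / 2 := by field_simp
    have e9 : (1 - C ^ 2) * (M / (ρ ^ 2 * v)) ≤ (1 - C ^ 2) * (v / (2 * ρ)) := by
      have : 0 ≤ 1 - C ^ 2 := by nlinarith
      gcongr
    have e10 : (1 - C ^ 2) * (M / (ρ ^ 2 * v)) = M / (ρ ^ 2 * v) - C ^ 2 * M / (ρ ^ 2 * v) := by
      ring
    have e11 : v / ρ - C ^ 2 * v / ρ = (1 - C ^ 2) * (v / (2 * ρ)) + (1 - C ^ 2) * (v / (2 * ρ)) := by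
      field_simp; ring
    have e12 : 10 * v * e / ρ = 5 * (v * e / ρ) + 5 * v * e / ρ := by ring
    rw [e12]
    rw [e5] at e2
    rw [e8] at e7
    linarith
  obtain ⟨D, hD⟩ : ∃ D, D = (v ^ 2 + A) / (ρ * v) - P ^ 2 / (ρ ^ 3 * v) - P * B / (ρ * v ^ 3) :=
    ⟨_, rfl⟩
  rw [← hD] at key ⊢
  rw [← hb, ← hC]
  have f1 : 3 * (ψ * P / ρ) / ρ ^ 4 = ψ * (3 * C * v / ρ ^ 4) := by
    rw [hPC]; field_simp
  rw [f1]
  have f2 : ψ * b - 30 * M * R ^ 2 * (-(ψ * (3 * C * v / ρ ^ 4)) * (2 - C) - 1 / ρ ^ 3 * (ψ * D)) =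
      ψ * (b + 30 * M * R ^ 2 * (3 * C * (2 - C) * v / ρ ^ 4 + D / ρ ^ 3)) := by
    field_simp
    ring
  rw [f2]
  refine mul_nonneg hψ.le ?_
  have f3 : v * 0.4 / ρ ^ 4 ≤ 3 * C * (2 - C) * v / ρ ^ 4 + D / ρ ^ 3 := by
    have g1 : ((1 - C ^ 2) * (v / (2 * ρ)) - 10 * v * e / ρ) / ρ ^ 3 ≤ D / ρ ^ 3 := by gcongr
    have g2 : ((1 - C ^ 2) * (v / (2 * ρ)) - 10 * v * e / ρ) / ρ ^ 3 =
        ((1 - C ^ 2) / 2 - 10 * e) * (v / ρ ^ 4) := by
      field_simp
    rw [g2] at g1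
    have g3 : 3 * C * (2 - C) * v / ρ ^ 4 = 3 * C * (2 - C) * (v / ρ ^ 4) := by ring
    have g4 : v * 0.4 / ρ ^ 4 = 0.4 * (v / ρ ^ 4) := by ring
    rw [g3, g4]
    have g5 : 0.4 * (v / ρ ^ 4) ≤ (3 * C * (2 - C) + ((1 - C ^ 2) / 2 - 10 * e)) * (v / ρ ^ 4) := by
      have : (0.4 : ℝ) ≤ 3 * C * (2 - C) + ((1 - C ^ 2) / 2 - 10 * e) := by nlinarith
      gcongr
    linarith [g5]
  have f4 : 30 * M * R ^ 2 * (v * 0.4 / ρ ^ 4) ≤
      30 * M * R ^ 2 * (3 * C * (2 - C) * v / ρ ^ 4 + D / ρ ^ 3) := by gcongr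
  have f5 : 30 * M * R ^ 2 * (v * 0.4 / ρ ^ 4) = 1.2 * (v * (10 * M * R ^ 2 / ρ ^ 4)) := by ring
  have f6 : 0 ≤ v * (10 * M * R ^ 2 / ρ ^ 4) := by positivity
  linarith

/-- abstract escape theorem -/
theorem escAbs3 (W P V A B r ψ τ : ℝ → ℝ) (M R : ℝ) (hM : 0 < M) (hR0 : 0 ≤ R)
    (hW : ∀ s, HasDerivAt W (2 * (ψ s * P s)) s)
    (hP : ∀ s, HasDerivAt P (ψ s * (V s + A s)) s)
    (hV : ∀ s, HasDerivAt V (2 * (ψ s * B s)) s)
    (hτ : ∀ s, HasDerivAt τ (ψ s) s) (hτ0 : τ 0 = 0)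
    (hψ : ∀ s, 0 < ψ s) (hr : Continuous r) (hcs : ∀ s, P s ^ 2 ≤ W s * V s)
    (hA : ∀ s, 0 < W s → 0 ≤ r s → r s ≤ Real.sqrt (W s) / 2 →
      -(M / Real.sqrt (W s)) - 10 * M * r s ^ 2 / Real.sqrt (W s) ^ 3 ≤ A s)
    (hB : ∀ s, 0 < W s → r s ≤ Real.sqrt (W s) / 2 →
      |B s + M * P s / Real.sqrt (W s) ^ 3| ≤
        Real.sqrt (V s) * (10 * M * r s ^ 2 / Real.sqrt (W s) ^ 4))
    (hr0 : ∀ s, 0 ≤ r s)
    (hen : ∀ s, W 0 ≤ W s → r s ≤ Real.sqrt (W s) / 2 → 2 * M / Real.sqrt (W s) ≤ V s → r s ≤ R)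
    (h0W : 0 < W 0) (h0P : 0 < P 0) (h0r : r 0 < Real.sqrt (W 0) / 2)
    (h0R : 20 * R ≤ Real.sqrt (W 0))
    (h0 : 60 * M * R ^ 2 / Real.sqrt (W 0) ^ 3 < V 0 / 2 - M / Real.sqrt (W 0)) :
    ∀ s, 0 ≤ s → W 0 + 2 * P 0 * τ s ≤ W s := by
  have hWc : Continuous W := continuous_iff_continuousAt.mpr fun s => (hW s).continuousAt
  have hPc : Continuous P := continuous_iff_continuousAt.mpr fun s => (hP s).continuousAt
  have hVc : Continuous V := continuous_iff_continuousAt.mpr fun s => (hV s).continuousAt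
  have hu0 : 0 < Real.sqrt (W 0) := Real.sqrt_pos.mpr h0W
  -- the monotone function
  obtain ⟨Q, hQ⟩ : ∃ Q : ℝ → ℝ, Q = fun s => (V s / 2 - M / Real.sqrt (W s)) -
    30 * M * R ^ 2 * (1 / Real.sqrt (W s) ^ 3 * (2 - P s / (Real.sqrt (W s) * Real.sqrt (V s)))) :=
    ⟨_, rfl⟩
  have hQd : ∀ s, 0 < W s → 0 < V s → HasDerivAt Q
      (ψ s * (B s + M * P s / Real.sqrt (W s) ^ 3) - 30 * M * R ^ 2 *
      (-(3 * (ψ s * P s / Real.sqrt (W s)) / Real.sqrt (W s) ^ 4) *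
        (2 - P s / (Real.sqrt (W s) * Real.sqrt (V s))) - 1 / Real.sqrt (W s) ^ 3 *
        (ψ s * ((Real.sqrt (V s) ^ 2 + A s) / (Real.sqrt (W s) * Real.sqrt (V s)) -
          P s ^ 2 / (Real.sqrt (W s) ^ 3 * Real.sqrt (V s)) -
          P s * B s / (Real.sqrt (W s) * Real.sqrt (V s) ^ 3))))) s := by
    intro s h1 h2
    have hρ : HasDerivAt (fun s => Real.sqrt (W s)) (2 * (ψ s * P s) / (2 * Real.sqrt (W s))) s :=
      (hW s).sqrt h1.ne'
    have hv : HasDerivAt (fun s => Real.sqrt (V s)) (2 * (ψ s * B s) / (2 * Real.sqrt (V s))) s :=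
      (hV s).sqrt h2.ne'
    have hρ0 : 0 < Real.sqrt (W s) := Real.sqrt_pos.mpr h1
    have hv0 : 0 < Real.sqrt (V s) := Real.sqrt_pos.mpr h2
    have e1 := ((hV s).div_const 2).sub ((hasDerivAt_const s M).div hρ hρ0.ne')
    have e2 := (hasDerivAt_const s (1:ℝ)).div (hρ.pow 3) (pow_ne_zero 3 hρ0.ne')
    have e3 := (hasDerivAt_const s (2:ℝ)).sub ((hP s).div (hρ.mul hv) (mul_pos hρ0 hv0).ne')
    have e4 := e1.sub ((e2.mul e3).const_mul (30 * M * R ^ 2))
    rw [hQ]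
    refine e4.congr_deriv ?_
    obtain ⟨y, hy⟩ : ∃ y, y = Real.sqrt (W s) := ⟨_, rfl⟩
    obtain ⟨z, hz⟩ : ∃ z, z = Real.sqrt (V s) := ⟨_, rfl⟩
    have hz2 : V s = z ^ 2 := by rw [hz]; exact (Real.sq_sqrt h2.le).symm
    have hy0 : 0 < y := by rw [hy]; exact hρ0
    have hz0 : 0 < z := by rw [hz]; exact hv0
    simp only [Pi.pow_apply, Pi.mul_apply, Pi.div_apply, Pi.sub_apply]
    rw [← hy, ← hz, hz2]
    field_simp
    ring
  have hb := boot (fun (α : Fin 4) s => match α with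
      | 0 => W s - W 0 / 2
      | 1 => P s
      | 2 => Real.sqrt (W s) / 2 - r s
      | 3 => V s / 2 * Real.sqrt (W s) - M)
    (by
      intro α
      fin_cases α
      · exact hWc.sub continuous_const
      · exact hPc
      · exact (hWc.sqrt.div_const 2).sub hr
      · exact ((hVc.div_const 2).mul hWc.sqrt).sub continuous_const)
    (by
      intro α
      fin_cases α
      · show 0 < W 0 - W 0 / 2
        linarith
      · exact h0P
      · show 0 < Real.sqrt (W 0) / 2 - r 0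
        linarith
      · show 0 < V 0 / 2 * Real.sqrt (W 0) - M
        have h1 : 0 ≤ 60 * M * R ^ 2 / Real.sqrt (W 0) ^ 3 := by positivity
        have h2 : M / Real.sqrt (W 0) < V 0 / 2 := by linarith
        rw [div_lt_iff₀ hu0] at h2
        linarith)
    (by
      intro Tm hT0 hall
      have hWp : ∀ t ∈ Icc 0 Tm, 0 < W t := fun t ht => by
        have : 0 ≤ W t - W 0 / 2 := hall t ht.1 ht.2 0
        linarith
      have hPn : ∀ t ∈ Icc 0 Tm, 0 ≤ P t := fun t ht => hall t ht.1 ht.2 1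
      have hle : ∀ t ∈ Icc 0 Tm, r t ≤ Real.sqrt (W t) / 2 := fun t ht => by
        have : 0 ≤ Real.sqrt (W t) / 2 - r t := hall t ht.1 ht.2 2
        linarith
      have hVM : ∀ t ∈ Icc 0 Tm, 2 * M / Real.sqrt (W t) ≤ V t := fun t ht => by
        have h1 : 0 ≤ V t / 2 * Real.sqrt (W t) - M := hall t ht.1 ht.2 3
        rw [div_le_iff₀ (Real.sqrt_pos.mpr (hWp t ht))]
        linarith
      have hVp : ∀ t ∈ Icc 0 Tm, 0 < V t := fun t ht => by
        have h1 := hVM t ht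
        have h2 := Real.sqrt_pos.mpr (hWp t ht)
        have h3 : 0 < 2 * M / Real.sqrt (W t) := by positivity
        linarith
      have hWm : MonotoneOn W (Icc 0 Tm) := by
        refine monotoneOn_of_deriv_nonneg (convex_Icc 0 Tm)
          (fun s _ => (hW s).continuousAt.continuousWithinAt)
          (fun s _ => (hW s).differentiableAt.differentiableWithinAt) ?_
        intro s hs
        rw [(hW s).deriv]
        have e1 := hPn s (interior_subset hs)
        have e2 := hψ s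
        positivity
      have hW0 : ∀ t ∈ Icc 0 Tm, W 0 ≤ W t := fun t ht =>
        hWm ⟨le_rfl, hT0⟩ ht ht.1
      have hrR : ∀ t ∈ Icc 0 Tm, r t ≤ R := fun t ht => hen t (hW0 t ht) (hle t ht) (hVM t ht)
      have hRW : ∀ t ∈ Icc 0 Tm, 20 * R ≤ Real.sqrt (W t) := fun t ht =>
        h0R.trans (Real.sqrt_le_sqrt (hW0 t ht))
      have hr2 : ∀ t ∈ Icc 0 Tm, r t ^ 2 ≤ R ^ 2 := fun t ht =>
        pow_le_pow_left₀ (hr0 t) (hrR t ht) 2
      have hA' : ∀ t ∈ Icc 0 Tm,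
          -(M / Real.sqrt (W t)) - 10 * M * R ^ 2 / Real.sqrt (W t) ^ 3 ≤ A t := fun t ht => by
        refine le_trans ?_ (hA t (hWp t ht) (hr0 t) (hle t ht))
        have h1 := hr2 t ht
        have h2 := Real.sqrt_pos.mpr (hWp t ht)
        gcongr
      have hPm : MonotoneOn P (Icc 0 Tm) := by
        refine monotoneOn_of_deriv_nonneg (convex_Icc 0 Tm)
          (fun s _ => (hP s).continuousAt.continuousWithinAt)
          (fun s _ => (hP s).differentiableAt.differentiableWithinAt) ?_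
        intro s hs
        rw [(hP s).deriv]
        have hs' := interior_subset hs
        refine mul_nonneg (hψ s).le ?_
        have e1 := hA' s hs'
        have e2 := hVM s hs'
        have e3 := Real.sqrt_pos.mpr (hWp s hs')
        have e4 : 10 * M * R ^ 2 / Real.sqrt (W s) ^ 3 ≤ M / Real.sqrt (W s) := by
          rw [div_le_div_iff₀ (by positivity) e3]
          have h1 : (20 * R) ^ 2 ≤ Real.sqrt (W s) ^ 2 :=
            pow_le_pow_left₀ (by positivity) (hRW s hs') 2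
          have h2 : 10 * R ^ 2 ≤ Real.sqrt (W s) ^ 2 := by nlinarith [sq_nonneg R]
          calc 10 * M * R ^ 2 * Real.sqrt (W s) = M * Real.sqrt (W s) * (10 * R ^ 2) := by ring
            _ ≤ M * Real.sqrt (W s) * Real.sqrt (W s) ^ 2 := by gcongr
            _ = _ := by ring
        have e5 : 2 * M / Real.sqrt (W s) = M / Real.sqrt (W s) + M / Real.sqrt (W s) := by ring
        linarith
      have hQm : MonotoneOn Q (Icc 0 Tm) := by
        refine monotoneOn_of_deriv_nonneg (convex_Icc 0 Tm)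
          (fun s hs => (hQd s (hWp s hs) (hVp s hs)).continuousAt.continuousWithinAt)
          (fun s hs => (hQd s (hWp s (interior_subset hs))
            (hVp s (interior_subset hs))).differentiableAt.differentiableWithinAt) ?_
        intro s hs
        have hs' := interior_subset hs
        rw [(hQd s (hWp s hs') (hVp s hs')).deriv]
        have k1 := Real.sqrt_pos.mpr (hWp s hs')
        have k2 := Real.sqrt_pos.mpr (hVp s hs')
        refine alg (Real.sqrt (W s)) (Real.sqrt (V s)) (P s) (A s) (B s) M R (ψ s) k1 k2 hM (hψ s)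
          (hPn s hs') ?_ ?_ (hRW s hs') hR0 (hA' s hs') ?_
        · refine le_of_sq_le_sq ?_ (by positivity)
          rw [mul_pow, Real.sq_sqrt (hWp s hs').le, Real.sq_sqrt (hVp s hs').le]
          exact hcs s
        · rw [Real.sq_sqrt (hVp s hs').le]
          have := hVM s hs'
          rw [div_le_iff₀ k1] at this
          linarith
        · refine (hB s (hWp s hs') (hle s hs')).trans ?_
          have := hr2 s hs'
          gcongr
      have hT : Tm ∈ Icc 0 Tm := ⟨hT0, le_rfl⟩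
      have h00 : (0:ℝ) ∈ Icc 0 Tm := ⟨le_rfl, hT0⟩
      have hWT := hW0 Tm hT
      have hPT := hPm h00 hT hT0
      have hQT := hQm h00 hT hT0
      have k1 := Real.sqrt_pos.mpr (hWp Tm hT)
      have k2 := Real.sqrt_pos.mpr (hVp Tm hT)
      have hh : 0 < V Tm / 2 - M / Real.sqrt (W Tm) := by
        rw [hQ] at hQT
        simp only at hQT
        have f1 : P Tm / (Real.sqrt (W Tm) * Real.sqrt (V Tm)) ≤ 1 := by
          rw [div_le_one (by positivity)]
          refine le_of_sq_le_sq ?_ (by positivity)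
          rw [mul_pow, Real.sq_sqrt (hWp Tm hT).le, Real.sq_sqrt (hVp Tm hT).le]
          exact hcs Tm
        have f2 : 0 ≤ P 0 / (Real.sqrt (W 0) * Real.sqrt (V 0)) := by positivity
        have f3 : 0 ≤ 30 * M * R ^ 2 * (1 / Real.sqrt (W Tm) ^ 3 *
            (2 - P Tm / (Real.sqrt (W Tm) * Real.sqrt (V Tm)))) := by
          have : 0 ≤ 2 - P Tm / (Real.sqrt (W Tm) * Real.sqrt (V Tm)) := by linarith
          positivity
        have f4 : 30 * M * R ^ 2 * (1 / Real.sqrt (W 0) ^ 3 *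
            (2 - P 0 / (Real.sqrt (W 0) * Real.sqrt (V 0)))) ≤
            30 * M * R ^ 2 * (1 / Real.sqrt (W 0) ^ 3 * 2) := by
          have : 2 - P 0 / (Real.sqrt (W 0) * Real.sqrt (V 0)) ≤ 2 := by linarith
          gcongr
        have f5 : 30 * M * R ^ 2 * (1 / Real.sqrt (W 0) ^ 3 * 2) =
            60 * M * R ^ 2 / Real.sqrt (W 0) ^ 3 := by ring
        linarith
      intro α
      fin_cases α
      · show 0 < W Tm - W 0 / 2
        linarith
      · show 0 < P Tm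
        linarith
      · show 0 < Real.sqrt (W Tm) / 2 - r Tm
        have h1 := hrR Tm hT
        have h2 := hRW Tm hT
        linarith
      · show 0 < V Tm / 2 * Real.sqrt (W Tm) - M
        have h2 : M / Real.sqrt (W Tm) < V Tm / 2 := by linarith
        rw [div_lt_iff₀ k1] at h2
        linarith)
  intro s hs
  -- `P` is increasing on the whole half line
  have hWp : ∀ t ∈ Ici (0:ℝ), 0 < W t := fun t ht => by
    have : 0 < W t - W 0 / 2 := hb t ht 0
    linarith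
  have hPn : ∀ t ∈ Ici (0:ℝ), 0 < P t := fun t ht => hb t ht 1
  have hle : ∀ t ∈ Ici (0:ℝ), r t ≤ Real.sqrt (W t) / 2 := fun t ht => by
    have : 0 < Real.sqrt (W t) / 2 - r t := hb t ht 2
    linarith
  have hVM : ∀ t ∈ Ici (0:ℝ), 2 * M / Real.sqrt (W t) ≤ V t := fun t ht => by
    have h1 : 0 < V t / 2 * Real.sqrt (W t) - M := hb t ht 3
    rw [div_le_iff₀ (Real.sqrt_pos.mpr (hWp t ht))]
    linarith
  have hWm : MonotoneOn W (Ici 0) := by
    refine monotoneOn_of_deriv_nonneg (convex_Ici 0)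
      (fun s _ => (hW s).continuousAt.continuousWithinAt)
      (fun s _ => (hW s).differentiableAt.differentiableWithinAt) ?_
    intro s hs
    rw [(hW s).deriv]
    have e1 := hPn s (interior_subset hs)
    have e2 := hψ s
    positivity
  have hW0 : ∀ t ∈ Ici (0:ℝ), W 0 ≤ W t := fun t ht => hWm (mem_Ici.mpr le_rfl) ht ht
  have hrR : ∀ t ∈ Ici (0:ℝ), r t ≤ R := fun t ht => hen t (hW0 t ht) (hle t ht) (hVM t ht)
  have hRW : ∀ t ∈ Ici (0:ℝ), 20 * R ≤ Real.sqrt (W t) := fun t ht =>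
    h0R.trans (Real.sqrt_le_sqrt (hW0 t ht))
  have hPm : MonotoneOn P (Ici 0) := by
    refine monotoneOn_of_deriv_nonneg (convex_Ici 0)
      (fun s _ => (hP s).continuousAt.continuousWithinAt)
      (fun s _ => (hP s).differentiableAt.differentiableWithinAt) ?_
    intro s hs
    rw [(hP s).deriv]
    have hs' := interior_subset hs
    refine mul_nonneg (hψ s).le ?_
    have e1 := hA s (hWp s hs') (hr0 s) (hle s hs')
    have e2 := hVM s hs'
    have e3 := Real.sqrt_pos.mpr (hWp s hs')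
    have e4 : 10 * M * r s ^ 2 / Real.sqrt (W s) ^ 3 ≤ M / Real.sqrt (W s) := by
      rw [div_le_div_iff₀ (by positivity) e3]
      have h1 : (20 * r s) ^ 2 ≤ Real.sqrt (W s) ^ 2 :=
        pow_le_pow_left₀ (by have := hr0 s; positivity) (by
          have := hRW s hs'
          have := hrR s hs'
          linarith) 2
      have h2 : 10 * r s ^ 2 ≤ Real.sqrt (W s) ^ 2 := by nlinarith [sq_nonneg (r s)]
      calc 10 * M * r s ^ 2 * Real.sqrt (W s) = M * Real.sqrt (W s) * (10 * r s ^ 2) := by ring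
        _ ≤ M * Real.sqrt (W s) * Real.sqrt (W s) ^ 2 := by gcongr
        _ = _ := by ring
    have e5 : 2 * M / Real.sqrt (W s) = M / Real.sqrt (W s) + M / Real.sqrt (W s) := by ring
    linarith
  have hfin : MonotoneOn (fun s => W s - 2 * P 0 * τ s) (Ici 0) := by
    have hd : ∀ s, HasDerivAt (fun s => W s - 2 * P 0 * τ s)
        (2 * (ψ s * P s) - 2 * P 0 * ψ s) s := fun s => (hW s).sub ((hτ s).const_mul _)
    refine monotoneOn_of_deriv_nonneg (convex_Ici 0)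
      (fun s _ => (hd s).continuousAt.continuousWithinAt)
      (fun s _ => (hd s).differentiableAt.differentiableWithinAt) ?_
    intro s hs
    rw [(hd s).deriv]
    have e1 : P 0 ≤ P s := hPm (mem_Ici.mpr le_rfl) (interior_subset hs) (interior_subset hs)
    have e2 := hψ s
    have e3 : 2 * (ψ s * P s) - 2 * P 0 * ψ s = 2 * ψ s * (P s - P 0) := by ring
    rw [e3]
    have : 0 ≤ P s - P 0 := by linarith
    positivity
  have h1 := hfin (mem_Ici.mpr le_rfl) (mem_Ici.mpr hs) hs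
  simp only [hτ0] at h1
  linarith

end Pool.Agent.H239.NBS
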