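import Pool.Agent.H239.NBS.Wand5

set_option autoImplicit false

/-! The energy of the pair, and the existence of an outer body far from the triple collision. -/

namespace Pool.Agent.H239.NBS

open Set Filter Topology Pool.Agent.Y516.NW Pool.Agent.Y438.NW Pool.Agent.T6.H53.NB

/-- lower bound of the potential of the third body -/
theorem accL (m : Fin 3 → ℝ) (hm : ∀ i, 0 < m i) (M : ℝ) (hM : ∑ i, m i = M) (q : Cfg 3)
    (hq : ∑ i, m i • q i = 0) (a b c : Fin 3) (hab : a ≠ b) (hca : c ≠ a) (hcb : c ≠ b)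
    (lam : ℝ) (hlam : lam = M / (m a + m b)) (hX : 0 < ‖lam • q c‖)
    (hr : ‖q a - q b‖ ≤ ‖lam • q c‖ / 2) :
    m c * (m a + m b) * (1 / ‖lam • q c‖) -
          (m a * m b * m c / (m a + m b)) * ‖q a - q b‖ ^ 2 / (2 * ‖lam • q c‖ ^ 3) ≤
      m a * m c / ‖q a - q c‖ + m b * m c / ‖q b - q c‖ := by
  have hma := hm a
  have hmb := hm b
  have hmc := hm c
  have hMs : m a + m b + m c = M := by
    rw [← hM, sum3 m a b c hab hca hcb]; ring
  have hqs : m a • q a + (m b • q b + m c • q c) = 0 := by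
    rw [← sum3 (fun i => m i • q i) a b c hab hca hcb]; exact hq
  obtain ⟨g1, g2⟩ := geo hma hmb (q a) (q b) (q c) hqs
  rw [hMs, ← hlam] at g1 g2
  obtain ⟨X, hXd⟩ : ∃ X, X = lam • q c := ⟨_, rfl⟩
  obtain ⟨e, hed⟩ : ∃ e, e = q a - q b := ⟨_, rfl⟩
  obtain ⟨α, hα⟩ : ∃ α, α = m b / (m a + m b) := ⟨_, rfl⟩
  obtain ⟨β, hβ⟩ : ∃ β, β = m a / (m a + m b) := ⟨_, rfl⟩
  rw [← hXd, ← hed, ← hα] at g1
  rw [← hXd, ← hed, ← hβ] at g2
  rw [← hXd] at hX hr ⊢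
  rw [← hed] at hr ⊢
  have hα0 : 0 ≤ α := by rw [hα]; positivity
  have hβ0 : 0 ≤ β := by rw [hβ]; positivity
  have hαβ : α + β = 1 := by rw [hα, hβ]; field_simp; ring
  have k := quad3 X e α β hα0 hβ0 hαβ hX hr
  rw [g1, g2, norm_neg, norm_neg]
  have f1 : m a * m c / ‖X - α • e‖ + m b * m c / ‖X + β • e‖ =
      m c * (m a + m b) * (β / ‖X - α • e‖ + α / ‖X + β • e‖) := by
    rw [hα, hβ]; field_simp
  rw [f1]
  have f2 : m c * (m a + m b) * (1 / ‖X‖) -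
      (m a * m b * m c / (m a + m b)) * ‖e‖ ^ 2 / (2 * ‖X‖ ^ 3) =
      m c * (m a + m b) * (1 / ‖X‖ - α * β * ‖e‖ ^ 2 / (2 * ‖X‖ ^ 3)) := by
    rw [hα, hβ]; field_simp
  rw [f2]
  gcongr

/-- splitting of the energy -/
theorem enSplit (m : Fin 3 → ℝ) (hm : ∀ i, 0 < m i) (M : ℝ) (hM : ∑ i, m i = M) (E : ℝ)
    (x : Cfg 3 × Cfg 3) (hx : x ∈ Surf m E) (a b c : Fin 3) (hab : a ≠ b) (hca : c ≠ a)
    (hcb : c ≠ b) (lam : ℝ) (hlam : lam = M / (m a + m b)) :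
    (m a * m b / (m a + m b) * ‖vel m x a - vel m x b‖ ^ 2 / 2 - m a * m b / ‖x.1 a - x.1 b‖) +
      m c * (m a + m b) / M * ‖lam • vel m x c‖ ^ 2 / 2 -
      (m a * m c / ‖x.1 a - x.1 c‖ + m b * m c / ‖x.1 b - x.1 c‖) = E := by
  have hma := hm a
  have hmb := hm b
  have hmc := hm c
  have hMs : m a + m b + m c = M := by
    rw [← hM, sum3 m a b c hab hca hcb]; ring
  have hM0 : 0 < M := by rw [← hMs]; positivity
  have hvs : m a • vel m x a + (m b • vel m x b + m c • vel m x c) = 0 := by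
    rw [← sum3 (fun i => m i • vel m x i) a b c hab hca hcb]; exact surf_mom m hm E x hx
  have hen := surf_ener m hm E x hx
  rw [Po3 m _ a b c hab hca hcb] at hen
  unfold Ki at hen
  rw [sum3 _ a b c hab hca hcb] at hen
  have e1 := split3' hma hmb _ _ _ hvs
  have e2 : m c * (m a + m b) / M * ‖lam • vel m x c‖ ^ 2 =
      m c * (m a + m b + m c) / (m a + m b) * ‖vel m x c‖ ^ 2 := by
    rw [norm_smul, Real.norm_of_nonneg (by rw [hlam]; positivity), hlam, hMs]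
    field_simp
  rw [e2]
  linarith

/-- the energy of the pair at a point where the outer energy is not large -/
theorem innerB (m : Fin 3 → ℝ) (hm : ∀ i, 0 < m i) (M : ℝ) (hM : ∑ i, m i = M) (E : ℝ)
    (hE : E < 0) (x : Cfg 3 × Cfg 3) (hx : x ∈ Surf m E) (a b c : Fin 3) (hab : a ≠ b)
    (hca : c ≠ a) (hcb : c ≠ b) (lam : ℝ) (hlam : lam = M / (m a + m b)) (In : ℝ)
    (hIn : In = m a * m b / (m a + m b) * ‖vel m x a - vel m x b‖ ^ 2 / 2 -
      m a * m b / ‖x.1 a - x.1 b‖)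
    (hX : 0 < ‖lam • x.1 c‖)
    (hr : ‖x.1 a - x.1 b‖ ≤ ‖lam • x.1 c‖ / 2)
    (hK : 40 * (m a * m b + m b * m c + m c * m a) < ‖lam • x.1 c‖ * (-E))
    (hV : ‖lam • vel m x c‖ ^ 2 * ‖lam • x.1 c‖ ≤
      2 * M * (1 + 240 * (m a * m b / (‖lam • x.1 c‖ * (-E))) ^ 2)) :
    -(241 * (m c * (m a + m b)) / ‖lam • x.1 c‖ * (m a * m b / (‖lam • x.1 c‖ * (-E))) ^ 2) ≤
        In - E ∧
      In - E ≤ m c * (m a + m b) / ‖lam • x.1 c‖ *
        (1 + 2 * (m a * m b / (‖lam • x.1 c‖ * (-E))) ^ 2) := by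
  have hma := hm a
  have hmb := hm b
  have hmc := hm c
  have hE' : 0 < -E := by linarith
  have hEne : E ≠ 0 := hE.ne
  have hMs : m a + m b + m c = M := by
    rw [← hM, sum3 m a b c hab hca hcb]; ring
  have hM0 : 0 < M := by rw [← hMs]; positivity
  have hen := enSplit m hm M hM E x hx a b c hab hca hcb lam hlam
  obtain ⟨-, k2⟩ := accQ m hm M hM x.1 hx.2.1 a b c hab hca hcb lam hlam hX hr
  have k3 := accL m hm M hM x.1 hx.2.1 a b c hab hca hcb lam hlam hX hr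
  rw [← hIn] at hen
  have hr0 : 0 < ‖x.1 a - x.1 b‖ := norm_pos_iff.2 (sub_ne_zero.2 (hx.1 a b hab))
  have hInr : -(m a * m b / ‖x.1 a - x.1 b‖) ≤ In := by
    rw [hIn]
    have : 0 ≤ m a * m b / (m a + m b) * ‖vel m x a - vel m x b‖ ^ 2 / 2 := by positivity
    linarith
  obtain ⟨ρ, hρ⟩ : ∃ ρ, ρ = ‖lam • x.1 c‖ := ⟨_, rfl⟩
  obtain ⟨r, hrd⟩ : ∃ r, r = ‖x.1 a - x.1 b‖ := ⟨_, rfl⟩
  obtain ⟨V, hVd⟩ : ∃ V, V = ‖lam • vel m x c‖ ^ 2 := ⟨_, rfl⟩
  obtain ⟨U, hU⟩ : ∃ U, U = m a * m c / ‖x.1 a - x.1 c‖ + m b * m c / ‖x.1 b - x.1 c‖ := ⟨_, rfl⟩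
  have hV0 : 0 ≤ V := by rw [hVd]; positivity
  rw [← hρ, ← hrd, ← hU] at k2 k3
  rw [← hVd, ← hU] at hen
  rw [← hρ, ← hVd] at hV
  rw [← hrd] at hInr
  rw [← hρ] at hX hK ⊢
  rw [← hρ, ← hrd] at hr
  rw [← hrd] at hr0
  obtain ⟨s, hs⟩ : ∃ s, s = m c * (m a + m b) := ⟨_, rfl⟩
  have hs0 : 0 < s := by rw [hs]; positivity
  obtain ⟨k, hk⟩ : ∃ k, k = m a * m b * m c / (m a + m b) := ⟨_, rfl⟩
  have hk0 : 0 < k := by rw [hk]; positivity
  have hks : 4 * k ≤ s := by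
    rw [hk, hs, ← mul_div_assoc, div_le_iff₀ (by positivity)]
    have : 4 * (m a * m b) ≤ (m a + m b) ^ 2 := by nlinarith [sq_nonneg (m a - m b)]
    calc 4 * (m a * m b * m c) = m c * (4 * (m a * m b)) := by ring
      _ ≤ m c * (m a + m b) ^ 2 := by gcongr
      _ = _ := by ring
  have hsK : 40 * s ≤ ρ * (-E) := by
    rw [hs]
    have : 0 < m a * m b := by positivity
    nlinarith
  have habK : 40 * (m a * m b) ≤ ρ * (-E) := by
    have : 0 < m b * m c + m c * m a := by positivity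
    nlinarith
  rw [← hs, ← hk] at k2 k3
  rw [← hs] at hen ⊢
  obtain ⟨z, hz⟩ : ∃ z, z = m a * m b / (ρ * (-E)) := ⟨_, rfl⟩
  have hz0 : 0 < z := by rw [hz]; positivity
  rw [← hz] at hV ⊢
  -- upper bound, crude
  have u0 : In - E = U - s / M * V / 2 := by linarith
  have u1 : 0 ≤ s / M * V / 2 := by positivity
  have u2 : In - E ≤ s * (1 / ρ) + 2 * k * r ^ 2 / ρ ^ 3 := by linarith
  have u3 : 2 * k * r ^ 2 / ρ ^ 3 ≤ s * (1 / ρ) := by
    have h1 : r ^ 2 ≤ (ρ / 2) ^ 2 := pow_le_pow_left₀ hr0.le hr 2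
    calc 2 * k * r ^ 2 / ρ ^ 3 ≤ 2 * k * (ρ / 2) ^ 2 / ρ ^ 3 := by gcongr
      _ = (k / 2) * (1 / ρ) := by field_simp
      _ ≤ s * (1 / ρ) := by gcongr; linarith
  have u4 : s * (1 / ρ) ≤ (-E) / 40 := by
    rw [mul_one_div, div_le_iff₀ hX]; linarith
  have u5 : In ≤ E / 2 := by linarith
  -- the size of the pair
  have hrz : r ≤ 2 * z * ρ := by
    have h1 : (-E) / 2 ≤ m a * m b / r := by linarith
    rw [le_div_iff₀ hr0] at h1
    have h2 : r * (-E) ≤ 2 * z * ρ * (-E) := by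
      have : 2 * z * ρ * (-E) = 2 * (m a * m b) := by rw [hz]; field_simp
      rw [this]; linarith
    exact le_of_mul_le_mul_right h2 hE'
  have hr2 : r ^ 2 ≤ 4 * z ^ 2 * ρ ^ 2 := by
    have := pow_le_pow_left₀ hr0.le hrz 2
    calc r ^ 2 ≤ (2 * z * ρ) ^ 2 := this
      _ = _ := by ring
  constructor
  · have h1 : s / M * V / 2 ≤ s * (1 / ρ) * (1 + 240 * z ^ 2) := by
      have h2 : V ≤ 2 * M * (1 + 240 * z ^ 2) / ρ := by
        rw [le_div_iff₀ hX]; exact hV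
      calc s / M * V / 2 ≤ s / M * (2 * M * (1 + 240 * z ^ 2) / ρ) / 2 := by gcongr
        _ = _ := by field_simp
    have h3 : k * r ^ 2 / (2 * ρ ^ 3) ≤ s * (1 / ρ) * z ^ 2 := by
      calc k * r ^ 2 / (2 * ρ ^ 3) ≤ k * (4 * z ^ 2 * ρ ^ 2) / (2 * ρ ^ 3) := by gcongr
        _ = 2 * k * (1 / ρ) * z ^ 2 := by field_simp; ring
        _ ≤ s * (1 / ρ) * z ^ 2 := by gcongr; linarith
    have h4 : 241 * s / ρ * z ^ 2 = s * (1 / ρ) * (240 * z ^ 2) + s * (1 / ρ) * z ^ 2 := by ring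
    rw [h4, u0]
    linarith
  · have h1 : 2 * k * r ^ 2 / ρ ^ 3 ≤ s * (1 / ρ) * (2 * z ^ 2) := by
      calc 2 * k * r ^ 2 / ρ ^ 3 ≤ 2 * k * (4 * z ^ 2 * ρ ^ 2) / ρ ^ 3 := by gcongr
        _ = 4 * k * (1 / ρ) * (2 * z ^ 2) := by field_simp
        _ ≤ s * (1 / ρ) * (2 * z ^ 2) := by gcongr
    have h2 : s / ρ * (1 + 2 * z ^ 2) = s * (1 / ρ) + s * (1 / ρ) * (2 * z ^ 2) := by ring
    rw [h2]
    linarith

/-- far from the triple collision there is an outer body -/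
theorem exOuter (m : Fin 3 → ℝ) (hm : ∀ i, 0 < m i) (M : ℝ) (hM : ∑ i, m i = M) (E : ℝ)
    (hE : E < 0) (x : Cfg 3 × Cfg 3) (hx : x ∈ Surf m E) (σ : ℝ)
    (hσ : ∀ a b c : Fin 3, a ≠ b → c ≠ a → c ≠ b → m a * m b + m b * m c + m c * m a = σ)
    (i j : Fin 3) (hij : 42 * σ < ‖x.1 i - x.1 j‖ * (-E)) :
    ∃ a b c : Fin 3, a ≠ b ∧ c ≠ a ∧ c ≠ b ∧
      2 * ‖x.1 a - x.1 b‖ < ‖(M / (m a + m b)) • x.1 c‖ ∧
      40 * σ < ‖(M / (m a + m b)) • x.1 c‖ * (-E) := by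
  have hE' : 0 < -E := by linarith
  obtain ⟨⟨a, b⟩, hab', hmin⟩ := Finset.exists_min_image
    (Finset.univ.filter (fun p : Fin 3 × Fin 3 => p.1 ≠ p.2)) (fun p => ‖x.1 p.1 - x.1 p.2‖)
    ⟨(0, 1), by simp⟩
  have hab : a ≠ b := by simpa using hab'
  have hmin' : ∀ i j, i ≠ j → ‖x.1 a - x.1 b‖ ≤ ‖x.1 i - x.1 j‖ := by
    intro i j hij
    exact hmin (i, j) (by simpa using hij)
  obtain ⟨c, hca, hcb⟩ := third a b hab
  have hma := hm a
  have hmb := hm b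
  have hmc := hm c
  have hMs : m a + m b + m c = M := by
    rw [← hM, sum3 m a b c hab hca hcb]; ring
  have hσ0 : 0 < σ := by rw [← hσ a b c hab hca hcb]; positivity
  obtain ⟨r, hrd⟩ : ∃ r, r = ‖x.1 a - x.1 b‖ := ⟨_, rfl⟩
  have hr0 : 0 < r := by rw [hrd]; exact norm_pos_iff.2 (sub_ne_zero.2 (hx.1 a b hab))
  -- the pair is tight
  have hrσ : r * (-E) ≤ σ := by
    have hen := surf_ener m hm E x hx
    rw [Po3 m _ a b c hab hca hcb] at hen
    have hK0 : 0 ≤ Ki m x := by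
      unfold Ki
      exact Finset.sum_nonneg fun i _ => by have := (hm i).le; positivity
    have h1 : r ≤ ‖x.1 a - x.1 c‖ := by rw [hrd]; exact hmin' a c hca.symm
    have h2 : r ≤ ‖x.1 b - x.1 c‖ := by rw [hrd]; exact hmin' b c hcb.symm
    rw [← hrd] at hen
    have h3 : m a * m c / ‖x.1 a - x.1 c‖ ≤ m a * m c / r := by gcongr
    have h4 : m b * m c / ‖x.1 b - x.1 c‖ ≤ m b * m c / r := by gcongr
    have h5 : -E ≤ σ / r := by
      rw [← hσ a b c hab hca hcb]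
      have : (m a * m b + m b * m c + m c * m a) / r =
          m a * m b / r + m a * m c / r + m b * m c / r := by ring
      rw [this]
      linarith
    rw [le_div_iff₀ hr0] at h5
    linarith
  -- the distance of the outer body
  have hqs : m a • x.1 a + (m b • x.1 b + m c • x.1 c) = 0 := by
    rw [← sum3 (fun i => m i • x.1 i) a b c hab hca hcb]; exact hx.2.1
  obtain ⟨g1, g2⟩ := geo hma hmb (x.1 a) (x.1 b) (x.1 c) hqs
  rw [hMs] at g1 g2
  obtain ⟨X, hXd⟩ : ∃ X, X = (M / (m a + m b)) • x.1 c := ⟨_, rfl⟩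
  obtain ⟨α, hα⟩ : ∃ α, α = m b / (m a + m b) := ⟨_, rfl⟩
  obtain ⟨β, hβ⟩ : ∃ β, β = m a / (m a + m b) := ⟨_, rfl⟩
  rw [← hXd, ← hα] at g1
  rw [← hXd, ← hβ] at g2
  have hα0 : 0 ≤ α := by rw [hα]; positivity
  have hβ0 : 0 ≤ β := by rw [hβ]; positivity
  have hα1 : α ≤ 1 := by rw [hα, div_le_one (by positivity)]; linarith
  have hβ1 : β ≤ 1 := by rw [hβ, div_le_one (by positivity)]; linarith
  have d1 : ‖x.1 a - x.1 c‖ ≤ ‖X‖ + r := by
    rw [g1, norm_neg]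
    refine (norm_sub_le _ _).trans ?_
    rw [norm_smul, Real.norm_of_nonneg hα0, ← hrd]
    have : α * r ≤ 1 * r := by gcongr
    linarith
  have d2 : ‖x.1 b - x.1 c‖ ≤ ‖X‖ + r := by
    rw [g2, norm_neg]
    refine (norm_add_le _ _).trans ?_
    rw [norm_smul, Real.norm_of_nonneg hβ0, ← hrd]
    have : β * r ≤ 1 * r := by gcongr
    linarith
  have hX0 := norm_nonneg X
  have dall : ∀ i j, ‖x.1 i - x.1 j‖ ≤ ‖X‖ + r := by
    have hu := univ3 a b c hab hca hcb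
    have hmem : ∀ k : Fin 3, k = a ∨ k = b ∨ k = c := by
      intro k
      have := Finset.mem_univ k
      rw [hu] at this
      simpa using this
    intro i j
    rcases hmem i with rfl | rfl | rfl <;> rcases hmem j with rfl | rfl | rfl
    · rw [sub_self, norm_zero]; linarith
    · rw [← hrd]; linarith
    · exact d1
    · rw [norm_sub_rev, ← hrd]; linarith
    · rw [sub_self, norm_zero]; linarith
    · exact d2
    · rw [norm_sub_rev]; exact d1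
    · rw [norm_sub_rev]; exact d2
    · rw [sub_self, norm_zero]; linarith
  have hfar : 41 * σ < ‖X‖ * (-E) := by
    have h1 : ‖x.1 i - x.1 j‖ * (-E) ≤ (‖X‖ + r) * (-E) := by
      have := dall i j
      gcongr
    linarith
  refine ⟨a, b, c, hab, hca, hcb, ?_, ?_⟩
  · rw [← hrd, ← hXd]
    have h1 : 2 * r * (-E) < ‖X‖ * (-E) := by linarith
    exact lt_of_mul_lt_mul_right h1 hE'.le
  · rw [← hXd]; linarith

end Pool.Agent.H239.NBS
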