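import Mathlib

set_option autoImplicit false

/-! The quadrupole estimates for the attraction and for the potential of a tight pair. -/

namespace Pool.Agent.H239.NBS

open Set Filter Topology

/-- scalar estimates; `t` is the distance of a member of the pair, `w = ⟨X, δ⟩`, `d = |δ|` -/
theorem scal3 (t ρ d w : ℝ) (ht : 0 < t) (hρ : 0 < ρ) (hd0 : 0 ≤ d) (hd : |t - ρ| ≤ d)
    (hdρ : d ≤ ρ / 2) (hw : t ^ 2 - ρ ^ 2 = 2 * w + d ^ 2) :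
    |1 / t ^ 3 - 1 / ρ ^ 3 + 3 * w / ρ ^ 5| ≤ 24 * d ^ 2 / ρ ^ 5 ∧
      |1 / t ^ 3 - 1 / ρ ^ 3| ≤ 14 * d / ρ ^ 4 ∧
      1 / t ≤ 1 / ρ - w / ρ ^ 3 + 2 * d ^ 2 / ρ ^ 3 := by
  have h2 : (t - ρ) ^ 2 ≤ d ^ 2 := by
    rw [← sq_abs (t - ρ)]
    exact pow_le_pow_left₀ (abs_nonneg _) hd 2
  obtain ⟨ha, hb⟩ := abs_le.1 hd
  have htρ : ρ ≤ 2 * t := by linarith
  refine ⟨?_, ?_, ?_⟩
  · have e1 : 1 / t ^ 3 - 1 / ρ ^ 3 + 3 * w / ρ ^ 5 =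
        (t - ρ) ^ 2 * ((3 / 2 * t ^ 3 + 3 * ρ * t ^ 2 + 2 * ρ ^ 2 * t + ρ ^ 3) / t ^ 3) / ρ ^ 5 -
          3 / 2 * d ^ 2 / ρ ^ 5 := by
      have : w = (t ^ 2 - ρ ^ 2 - d ^ 2) / 2 := by linarith
      rw [this]
      field_simp
      ring
    rw [e1]
    have e2 : (3 / 2 * t ^ 3 + 3 * ρ * t ^ 2 + 2 * ρ ^ 2 * t + ρ ^ 3) / t ^ 3 ≤ 47 / 2 := by
      rw [div_le_iff₀ (by positivity)]
      have f1 : ρ * t ^ 2 ≤ 2 * t * t ^ 2 := by gcongr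
      have f2 : ρ ^ 2 * t ≤ (2 * t) ^ 2 * t := by gcongr
      have f3 : ρ ^ 3 ≤ (2 * t) ^ 3 := by gcongr
      nlinarith
    have e3 : 0 ≤ (3 / 2 * t ^ 3 + 3 * ρ * t ^ 2 + 2 * ρ ^ 2 * t + ρ ^ 3) / t ^ 3 := by positivity
    obtain ⟨z, hz⟩ : ∃ z, z = (3 / 2 * t ^ 3 + 3 * ρ * t ^ 2 + 2 * ρ ^ 2 * t + ρ ^ 3) / t ^ 3 :=
      ⟨_, rfl⟩
    rw [← hz] at e2 e3 ⊢
    have e4 : (t - ρ) ^ 2 * z / ρ ^ 5 ≤ d ^ 2 * (47 / 2) / ρ ^ 5 := by gcongr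
    have e5 : 0 ≤ (t - ρ) ^ 2 * z / ρ ^ 5 := by positivity
    have e6 : 0 ≤ d ^ 2 / ρ ^ 5 := by positivity
    have e7 : d ^ 2 * (47 / 2) / ρ ^ 5 = 47 / 2 * (d ^ 2 / ρ ^ 5) := by ring
    have e8 : 3 / 2 * d ^ 2 / ρ ^ 5 = 3 / 2 * (d ^ 2 / ρ ^ 5) := by ring
    have e9 : 24 * d ^ 2 / ρ ^ 5 = 24 * (d ^ 2 / ρ ^ 5) := by ring
    rw [e8, e9, abs_le]
    rw [e7] at e4
    constructor <;> linarith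
  · have e1 : 1 / t ^ 3 - 1 / ρ ^ 3 = -((t - ρ) * ((t ^ 2 + t * ρ + ρ ^ 2) / t ^ 3)) / ρ ^ 3 := by
      field_simp
      ring
    rw [e1, abs_div, abs_neg, abs_mul]
    have e2 : (t ^ 2 + t * ρ + ρ ^ 2) / t ^ 3 ≤ 14 / ρ := by
      rw [div_le_div_iff₀ (by positivity) hρ]
      have f1 : t ^ 2 * ρ ≤ t ^ 2 * (2 * t) := by gcongr
      have f2 : t * ρ * ρ ≤ t * (2 * t) * (2 * t) := by gcongr
      have f3 : ρ ^ 2 * ρ ≤ (2 * t) ^ 2 * (2 * t) := by gcongr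
      nlinarith
    have e3 : 0 ≤ (t ^ 2 + t * ρ + ρ ^ 2) / t ^ 3 := by positivity
    rw [abs_of_nonneg e3, abs_of_pos (by positivity : 0 < ρ ^ 3)]
    calc |t - ρ| * ((t ^ 2 + t * ρ + ρ ^ 2) / t ^ 3) / ρ ^ 3 ≤ d * (14 / ρ) / ρ ^ 3 := by gcongr
      _ = _ := by field_simp
  · have e1 : 1 / t = 1 / ρ - w / ρ ^ 3 - 1 / 2 * (d ^ 2 / ρ ^ 3) +
        (t - ρ) ^ 2 * ((t + 2 * ρ) / t) / (2 * ρ ^ 3) := by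
      have : w = (t ^ 2 - ρ ^ 2 - d ^ 2) / 2 := by linarith
      rw [this]
      field_simp
      ring
    have e2 : (t + 2 * ρ) / t ≤ 5 := by
      rw [div_le_iff₀ ht]; linarith
    have e3 : (t - ρ) ^ 2 * ((t + 2 * ρ) / t) / (2 * ρ ^ 3) ≤ d ^ 2 * 5 / (2 * ρ ^ 3) := by
      have : 0 ≤ (t + 2 * ρ) / t := by positivity
      gcongr
    have e4 : d ^ 2 * 5 / (2 * ρ ^ 3) = 5 / 2 * (d ^ 2 / ρ ^ 3) := by field_simp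
    have e5 : 2 * d ^ 2 / ρ ^ 3 = 2 * (d ^ 2 / ρ ^ 3) := by ring
    rw [e1, e5]
    rw [e4] at e3
    linarith

variable {F : Type*} [NormedAddCommGroup F] [InnerProductSpace ℝ F]

/-- the attraction at `X + δ`, expanded at `X` -/
theorem quad1 (X δ : F) (hX : 0 < ‖X‖) (hδ : ‖δ‖ ≤ ‖X‖ / 2) :
    ‖(1 / ‖X + δ‖ ^ 3) • (X + δ) - (1 / ‖X‖ ^ 3) • X - (1 / ‖X‖ ^ 3) • δ +
      (3 * inner ℝ X δ / ‖X‖ ^ 5) • X‖ ≤ 40 * ‖δ‖ ^ 2 / ‖X‖ ^ 4 ∧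
    1 / ‖X + δ‖ ≤ 1 / ‖X‖ - inner ℝ X δ / ‖X‖ ^ 3 + 2 * ‖δ‖ ^ 2 / ‖X‖ ^ 3 := by
  have h1 : |‖X + δ‖ - ‖X‖| ≤ ‖δ‖ := by
    have := abs_norm_sub_norm_le (X + δ) X
    rwa [add_sub_cancel_left] at this
  have ht : 0 < ‖X + δ‖ := by
    have := (abs_le.1 h1).1
    linarith
  have hw : ‖X + δ‖ ^ 2 - ‖X‖ ^ 2 = 2 * inner ℝ X δ + ‖δ‖ ^ 2 := by
    rw [norm_add_sq_real]; ring
  obtain ⟨k1, k2, k3⟩ := scal3 ‖X + δ‖ ‖X‖ ‖δ‖ (inner ℝ X δ) ht hX (norm_nonneg _) h1 hδ hw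
  refine ⟨?_, k3⟩
  have e1 : (1 / ‖X + δ‖ ^ 3) • (X + δ) - (1 / ‖X‖ ^ 3) • X - (1 / ‖X‖ ^ 3) • δ +
      (3 * inner ℝ X δ / ‖X‖ ^ 5) • X =
      (1 / ‖X + δ‖ ^ 3 - 1 / ‖X‖ ^ 3 + 3 * inner ℝ X δ / ‖X‖ ^ 5) • X +
        (1 / ‖X + δ‖ ^ 3 - 1 / ‖X‖ ^ 3) • δ := by
    module
  rw [e1]
  refine (norm_add_le _ _).trans ?_
  rw [norm_smul, norm_smul, Real.norm_eq_abs, Real.norm_eq_abs]
  calc _ ≤ 24 * ‖δ‖ ^ 2 / ‖X‖ ^ 5 * ‖X‖ + 14 * ‖δ‖ / ‖X‖ ^ 4 * ‖δ‖ := by gcongr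
    _ = 38 * ‖δ‖ ^ 2 / ‖X‖ ^ 4 := by field_simp; ring
    _ ≤ 40 * ‖δ‖ ^ 2 / ‖X‖ ^ 4 := by gcongr; norm_num

/-- the attraction by a pair with the masses `α`, `β` (`α + β = 1`), the pair at `α e` and `-β e` -/
theorem quad2 (X e : F) (α β : ℝ) (hα : 0 ≤ α) (hβ : 0 ≤ β) (hαβ : α + β = 1) (hX : 0 < ‖X‖)
    (he : ‖e‖ ≤ ‖X‖ / 2) :
    ‖(β / ‖X - α • e‖ ^ 3) • (X - α • e) + (α / ‖X + β • e‖ ^ 3) • (X + β • e) -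
      (1 / ‖X‖ ^ 3) • X‖ ≤ 10 * ‖e‖ ^ 2 / ‖X‖ ^ 4 ∧
    β / ‖X - α • e‖ + α / ‖X + β • e‖ ≤ 1 / ‖X‖ + 2 * (α * β) * ‖e‖ ^ 2 / ‖X‖ ^ 3 := by
  have hα1 : α ≤ 1 := by linarith
  have hβ1 : β ≤ 1 := by linarith
  have n1 : ‖-(α • e)‖ = α * ‖e‖ := by rw [norm_neg, norm_smul, Real.norm_of_nonneg hα]
  have n2 : ‖β • e‖ = β * ‖e‖ := by rw [norm_smul, Real.norm_of_nonneg hβ]
  have b1 : α * ‖e‖ ≤ 1 * ‖e‖ := by gcongr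
  have b2 : β * ‖e‖ ≤ 1 * ‖e‖ := by gcongr
  obtain ⟨k1, k2⟩ := quad1 X (-(α • e)) hX (by rw [n1]; linarith)
  obtain ⟨k3, k4⟩ := quad1 X (β • e) hX (by rw [n2]; linarith)
  rw [n1] at k1 k2
  rw [n2] at k3 k4
  rw [inner_neg_right, inner_smul_right, ← sub_eq_add_neg] at k2
  rw [inner_smul_right] at k4
  have hαβ4 : α * β ≤ 1 / 4 := by nlinarith [sq_nonneg (α - β)]
  have hsum : β * α ^ 2 + α * β ^ 2 = α * β := by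
    have : β * α ^ 2 + α * β ^ 2 = α * β * (α + β) := by ring
    rw [this, hαβ, mul_one]
  constructor
  · obtain ⟨A1, hA1⟩ : ∃ A1, A1 = (1 / ‖X + -(α • e)‖ ^ 3) • (X + -(α • e)) - (1 / ‖X‖ ^ 3) • X -
      (1 / ‖X‖ ^ 3) • (-(α • e)) + (3 * inner ℝ X (-(α • e)) / ‖X‖ ^ 5) • X := ⟨_, rfl⟩
    obtain ⟨A2, hA2⟩ : ∃ A2, A2 = (1 / ‖X + β • e‖ ^ 3) • (X + β • e) - (1 / ‖X‖ ^ 3) • X -
      (1 / ‖X‖ ^ 3) • (β • e) + (3 * inner ℝ X (β • e) / ‖X‖ ^ 5) • X := ⟨_, rfl⟩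
    rw [← hA1] at k1
    rw [← hA2] at k3
    have e1 : (β / ‖X - α • e‖ ^ 3) • (X - α • e) + (α / ‖X + β • e‖ ^ 3) • (X + β • e) -
        (1 / ‖X‖ ^ 3) • X = β • A1 + α • A2 := by
      rw [hA1, hA2, inner_neg_right, inner_smul_right, inner_smul_right, ← sub_eq_add_neg]
      have hβ' : β = 1 - α := by linarith
      rw [div_eq_mul_one_div β, div_eq_mul_one_div α]
      generalize 1 / ‖X - α • e‖ ^ 3 = p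
      generalize 1 / ‖X + β • e‖ ^ 3 = q
      rw [hβ']
      module
    rw [e1]
    refine (norm_add_le _ _).trans ?_
    rw [norm_smul, norm_smul, Real.norm_of_nonneg hα, Real.norm_of_nonneg hβ]
    calc β * ‖A1‖ + α * ‖A2‖ ≤ β * (40 * (α * ‖e‖) ^ 2 / ‖X‖ ^ 4) +
          α * (40 * (β * ‖e‖) ^ 2 / ‖X‖ ^ 4) := by gcongr
      _ = 40 * (β * α ^ 2 + α * β ^ 2) * (‖e‖ ^ 2 / ‖X‖ ^ 4) := by ring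
      _ = 40 * (α * β) * (‖e‖ ^ 2 / ‖X‖ ^ 4) := by rw [hsum]
      _ ≤ 40 * (1 / 4) * (‖e‖ ^ 2 / ‖X‖ ^ 4) := by gcongr
      _ = _ := by ring
  · have f1 : β / ‖X - α • e‖ = β * (1 / ‖X - α • e‖) := by ring
    have f2 : α / ‖X + β • e‖ = α * (1 / ‖X + β • e‖) := by ring
    rw [f1, f2]
    calc β * (1 / ‖X - α • e‖) + α * (1 / ‖X + β • e‖) ≤
          β * (1 / ‖X‖ - -(α * inner ℝ X e) / ‖X‖ ^ 3 + 2 * (α * ‖e‖) ^ 2 / ‖X‖ ^ 3) +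
          α * (1 / ‖X‖ - β * inner ℝ X e / ‖X‖ ^ 3 + 2 * (β * ‖e‖) ^ 2 / ‖X‖ ^ 3) := by gcongr
      _ = (α + β) * (1 / ‖X‖) + 2 * (β * α ^ 2 + α * β ^ 2) * ‖e‖ ^ 2 / ‖X‖ ^ 3 := by ring
      _ = _ := by rw [hsum, hαβ, one_mul]

/-- lower bound of the potential of the pair -/
theorem quad3 (X e : F) (α β : ℝ) (hα : 0 ≤ α) (hβ : 0 ≤ β) (hαβ : α + β = 1) (hX : 0 < ‖X‖)
    (he : ‖e‖ ≤ ‖X‖ / 2) :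
    1 / ‖X‖ - α * β * ‖e‖ ^ 2 / (2 * ‖X‖ ^ 3) ≤ β / ‖X - α • e‖ + α / ‖X + β • e‖ := by
  have key : ∀ δ : F, ‖δ‖ ≤ ‖X‖ / 2 →
      1 / ‖X‖ - inner ℝ X δ / ‖X‖ ^ 3 - ‖δ‖ ^ 2 / (2 * ‖X‖ ^ 3) ≤ 1 / ‖X + δ‖ := by
    intro δ hδ
    have h1 : |‖X + δ‖ - ‖X‖| ≤ ‖δ‖ := by
      have := abs_norm_sub_norm_le (X + δ) X
      rwa [add_sub_cancel_left] at this
    have ht : 0 < ‖X + δ‖ := by
      have := (abs_le.1 h1).1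
      linarith
    have hw : ‖X + δ‖ ^ 2 - ‖X‖ ^ 2 = 2 * inner ℝ X δ + ‖δ‖ ^ 2 := by
      rw [norm_add_sq_real]; ring
    obtain ⟨t, ht'⟩ : ∃ t, t = ‖X + δ‖ := ⟨_, rfl⟩
    obtain ⟨ρ, hρ⟩ : ∃ ρ, ρ = ‖X‖ := ⟨_, rfl⟩
    rw [← ht', ← hρ] at hw
    rw [← ht'] at ht ⊢
    rw [← hρ] at hX ⊢
    have e1 : 1 / t = 1 / ρ - inner ℝ X δ / ρ ^ 3 - ‖δ‖ ^ 2 / (2 * ρ ^ 3) +
        (t - ρ) ^ 2 * ((t + 2 * ρ) / t) / (2 * ρ ^ 3) := by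
      have : inner ℝ X δ = (t ^ 2 - ρ ^ 2 - ‖δ‖ ^ 2) / 2 := by linarith
      rw [this]
      field_simp
      ring
    rw [e1]
    have : 0 ≤ (t - ρ) ^ 2 * ((t + 2 * ρ) / t) / (2 * ρ ^ 3) := by positivity
    linarith
  have hα1 : α ≤ 1 := by linarith
  have hβ1 : β ≤ 1 := by linarith
  have n1 : ‖-(α • e)‖ = α * ‖e‖ := by rw [norm_neg, norm_smul, Real.norm_of_nonneg hα]
  have n2 : ‖β • e‖ = β * ‖e‖ := by rw [norm_smul, Real.norm_of_nonneg hβ]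
  have b1 : α * ‖e‖ ≤ 1 * ‖e‖ := by gcongr
  have b2 : β * ‖e‖ ≤ 1 * ‖e‖ := by gcongr
  have k2 := key (-(α • e)) (by rw [n1]; linarith)
  have k4 := key (β • e) (by rw [n2]; linarith)
  rw [n1, inner_neg_right, inner_smul_right, ← sub_eq_add_neg] at k2
  rw [n2, inner_smul_right] at k4
  have hsum : β * α ^ 2 + α * β ^ 2 = α * β := by
    have : β * α ^ 2 + α * β ^ 2 = α * β * (α + β) := by ring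
    rw [this, hαβ, mul_one]
  have f1 : β / ‖X - α • e‖ = β * (1 / ‖X - α • e‖) := by ring
  have f2 : α / ‖X + β • e‖ = α * (1 / ‖X + β • e‖) := by ring
  rw [f1, f2]
  calc 1 / ‖X‖ - α * β * ‖e‖ ^ 2 / (2 * ‖X‖ ^ 3) =
        (α + β) * (1 / ‖X‖) - (β * α ^ 2 + α * β ^ 2) * ‖e‖ ^ 2 / (2 * ‖X‖ ^ 3) := by
          rw [hsum, hαβ, one_mul]
    _ = β * (1 / ‖X‖ - -(α * inner ℝ X e) / ‖X‖ ^ 3 - (α * ‖e‖) ^ 2 / (2 * ‖X‖ ^ 3)) +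
          α * (1 / ‖X‖ - β * inner ℝ X e / ‖X‖ ^ 3 - (β * ‖e‖) ^ 2 / (2 * ‖X‖ ^ 3)) := by ring
    _ ≤ _ := by gcongr

end Pool.Agent.H239.NBS
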