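import Pool.Graph.R_pool_sql_team_seeded_47a924f7.T6.H53.NB.Wand4
import Pool.Agent.H239.NBS.Abs
import Pool.Agent.H239.NBS.Quad

set_option autoImplicit false

/-! Escape of the outer one of three bodies above the parabolic energy. -/

namespace Pool.Agent.H239.NBS

open Set Filter Topology Pool.Agent.Y516.NW Pool.Agent.Y438.NW Pool.Agent.T6.H53.NB

/-- the positions of the members of the pair relative to the third body -/
theorem geo {a b c : ℝ} (ha : 0 < a) (hb : 0 < b) (x y z : E3)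
    (h : a • x + (b • y + c • z) = 0) :
    x - z = -(((a + b + c) / (a + b)) • z - (b / (a + b)) • (x - y)) ∧
      y - z = -(((a + b + c) / (a + b)) • z + (a / (a + b)) • (x - y)) := by
  have hs : a + b ≠ 0 := by positivity
  constructor
  · have e : x - z - -(((a + b + c) / (a + b)) • z - (b / (a + b)) • (x - y)) =
        (a + b)⁻¹ • (a • x + (b • y + c • z)) := by
      match_scalars <;> field_simp <;> ring
    rw [h, smul_zero] at e
    exact sub_eq_zero.1 e
  · have e : y - z - -(((a + b + c) / (a + b)) • z + (a / (a + b)) • (x - y)) =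
        (a + b)⁻¹ • (a • x + (b • y + c • z)) := by
      match_scalars <;> field_simp <;> ring
    rw [h, smul_zero] at e
    exact sub_eq_zero.1 e

/-- the relative acceleration and the potential of the third body -/
theorem accQ (m : Fin 3 → ℝ) (hm : ∀ i, 0 < m i) (M : ℝ) (hM : ∑ i, m i = M) (q : Cfg 3)
    (hq : ∑ i, m i • q i = 0) (a b c : Fin 3) (hab : a ≠ b) (hca : c ≠ a) (hcb : c ≠ b)
    (lam : ℝ) (hlam : lam = M / (m a + m b)) (hX : 0 < ‖lam • q c‖)
    (hr : ‖q a - q b‖ ≤ ‖lam • q c‖ / 2) :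
    ‖lam • acc m q c + (M / ‖lam • q c‖ ^ 3) • (lam • q c)‖ ≤
        10 * M * ‖q a - q b‖ ^ 2 / ‖lam • q c‖ ^ 4 ∧
      m a * m c / ‖q a - q c‖ + m b * m c / ‖q b - q c‖ ≤
        m c * (m a + m b) * (1 / ‖lam • q c‖) +
          2 * (m a * m b * m c / (m a + m b)) * ‖q a - q b‖ ^ 2 / ‖lam • q c‖ ^ 3 := by
  have hma := hm a
  have hmb := hm b
  have hmc := hm c
  have hMs : m a + m b + m c = M := by
    rw [← hM, sum3 m a b c hab hca hcb]; ring
  have hM0 : 0 < M := by rw [← hMs]; positivity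
  have hqs : m a • q a + (m b • q b + m c • q c) = 0 := by
    rw [← sum3 (fun i => m i • q i) a b c hab hca hcb]; exact hq
  obtain ⟨g1, g2⟩ := geo hma hmb (q a) (q b) (q c) hqs
  rw [hMs, ← hlam] at g1 g2
  obtain ⟨X, hXd⟩ : ∃ X, X = lam • q c := ⟨_, rfl⟩
  obtain ⟨e, hed⟩ : ∃ e, e = q a - q b := ⟨_, rfl⟩
  obtain ⟨α, hα⟩ : ∃ α, α = m b / (m a + m b) := ⟨_, rfl⟩
  obtain ⟨β, hβ⟩ : ∃ β, β = m a / (m a + m b) := ⟨_, rfl⟩
  rw [← hXd, ← hed, ← hα] at g1
  rw [← hXd, ← hed, ← hβ] at g2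
  rw [← hXd] at hX hr ⊢
  rw [← hed] at hr ⊢
  have hα0 : 0 ≤ α := by rw [hα]; positivity
  have hβ0 : 0 ≤ β := by rw [hβ]; positivity
  have hαβ : α + β = 1 := by rw [hα, hβ]; field_simp; ring
  obtain ⟨k1, k2⟩ := quad2 X e α β hα0 hβ0 hαβ hX hr
  constructor
  · have e1 : lam • acc m q c + (M / ‖X‖ ^ 3) • X = (-M) • ((β / ‖X - α • e‖ ^ 3) • (X - α • e) +
        (α / ‖X + β • e‖ ^ 3) • (X + β • e) - (1 / ‖X‖ ^ 3) • X) := by
      unfold acc
      rw [sum3 _ a b c hab hca hcb]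
      simp only [sub_self, smul_zero, add_zero]
      rw [g1, g2, norm_neg, norm_neg]
      have f1 : lam * m a = M * β := by rw [hlam, hβ]; field_simp
      have f2 : lam * m b = M * α := by rw [hlam, hα]; field_simp
      have f3 : lam • ((m a / ‖X - α • e‖ ^ 3) • -(X - α • e) +
          (m b / ‖X + β • e‖ ^ 3) • -(X + β • e)) =
          (-((lam * m a) / ‖X - α • e‖ ^ 3)) • (X - α • e) +
          (-((lam * m b) / ‖X + β • e‖ ^ 3)) • (X + β • e) := by
        module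
      rw [f3, f1, f2]
      module
    rw [e1, norm_smul, norm_neg, Real.norm_of_nonneg hM0.le]
    calc M * _ ≤ M * (10 * ‖e‖ ^ 2 / ‖X‖ ^ 4) := by gcongr
      _ = _ := by ring
  · rw [g1, g2, norm_neg, norm_neg]
    have f1 : m a * m c / ‖X - α • e‖ + m b * m c / ‖X + β • e‖ =
        m c * (m a + m b) * (β / ‖X - α • e‖ + α / ‖X + β • e‖) := by
      rw [hα, hβ]; field_simp
    rw [f1]
    have f2 : m c * (m a + m b) * (1 / ‖X‖) +
        2 * (m a * m b * m c / (m a + m b)) * ‖e‖ ^ 2 / ‖X‖ ^ 3 =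
        m c * (m a + m b) * (1 / ‖X‖ + 2 * (α * β) * ‖e‖ ^ 2 / ‖X‖ ^ 3) := by
      rw [hα, hβ]; field_simp
    rw [f2]
    gcongr

/-- the pair stays tight as long as the outer energy is not negative -/
theorem tight (m : Fin 3 → ℝ) (hm : ∀ i, 0 < m i) (M : ℝ) (hM : ∑ i, m i = M) (E : ℝ)
    (hE : E < 0) (q v : Cfg 3) (hq : ∑ i, m i • q i = 0) (hv : ∑ i, m i • v i = 0)
    (hen : ∑ i, m i * ‖v i‖ ^ 2 / 2 - ∑ i, ∑ j, m i * m j / ‖q i - q j‖ / 2 = E)
    (a b c : Fin 3) (hab : a ≠ b) (hca : c ≠ a) (hcb : c ≠ b) (hne : q a ≠ q b)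
    (lam : ℝ) (hlam : lam = M / (m a + m b)) (hX : 0 < ‖lam • q c‖)
    (hr : ‖q a - q b‖ ≤ ‖lam • q c‖ / 2)
    (hK : m a * m b * m c / (m a + m b) ≤ ‖lam • q c‖ * (-E))
    (hV : 2 * M / ‖lam • q c‖ ≤ ‖lam • v c‖ ^ 2) :
    ‖q a - q b‖ ≤ 2 * (m a * m b) / (-E) := by
  have hma := hm a
  have hmb := hm b
  have hmc := hm c
  have hMs : m a + m b + m c = M := by
    rw [← hM, sum3 m a b c hab hca hcb]; ring
  have hM0 : 0 < M := by rw [← hMs]; positivity
  have hvs : m a • v a + (m b • v b + m c • v c) = 0 := by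
    rw [← sum3 (fun i => m i • v i) a b c hab hca hcb]; exact hv
  have hT : ∑ i, m i * ‖v i‖ ^ 2 / 2 = (m a * m b / (m a + m b) * ‖v a - v b‖ ^ 2 +
      m c * (m a + m b) / M * ‖lam • v c‖ ^ 2) / 2 := by
    rw [sum3 _ a b c hab hca hcb]
    have e1 := split3' hma hmb _ _ _ hvs
    have e2 : m c * (m a + m b) / M * ‖lam • v c‖ ^ 2 =
        m c * (m a + m b + m c) / (m a + m b) * ‖v c‖ ^ 2 := by
      rw [norm_smul, Real.norm_of_nonneg (by rw [hlam]; positivity), hlam, hMs]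
      field_simp
    rw [e2, ← e1]
    ring
  have hP : ∑ i, ∑ j, m i * m j / ‖q i - q j‖ / 2 = m a * m b / ‖q a - q b‖ +
      m a * m c / ‖q a - q c‖ + m b * m c / ‖q b - q c‖ := Po3 m q a b c hab hca hcb
  obtain ⟨-, k2⟩ := accQ m hm M hM q hq a b c hab hca hcb lam hlam hX hr
  rw [hT, hP] at hen
  obtain ⟨ρ, hρ⟩ : ∃ ρ, ρ = ‖lam • q c‖ := ⟨_, rfl⟩
  obtain ⟨r, hrd⟩ : ∃ r, r = ‖q a - q b‖ := ⟨_, rfl⟩
  rw [← hρ, ← hrd] at k2
  rw [← hρ] at hX hr hK hV
  rw [← hrd] at hr hen ⊢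
  have hr0 : 0 < r := by rw [hrd]; exact norm_pos_iff.2 (sub_ne_zero.2 hne)
  have f1 : 0 ≤ m a * m b / (m a + m b) * ‖v a - v b‖ ^ 2 := by positivity
  have f2 : m c * (m a + m b) * (1 / ρ) ≤ m c * (m a + m b) / M * ‖lam • v c‖ ^ 2 / 2 := by
    calc m c * (m a + m b) * (1 / ρ) = m c * (m a + m b) / M * (2 * M / ρ) / 2 := by
          field_simp
      _ ≤ _ := by gcongr
  have f3 : 2 * (m a * m b * m c / (m a + m b)) * r ^ 2 / ρ ^ 3 ≤ (-E) / 2 := by
    obtain ⟨k, hk⟩ : ∃ k, k = m a * m b * m c / (m a + m b) := ⟨_, rfl⟩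
    have hk0 : 0 < k := by rw [hk]; positivity
    rw [← hk] at hK ⊢
    have g1 : r ^ 2 ≤ (ρ / 2) ^ 2 := pow_le_pow_left₀ hr0.le hr 2
    calc 2 * k * r ^ 2 / ρ ^ 3 ≤ 2 * k * (ρ / 2) ^ 2 / ρ ^ 3 := by gcongr
      _ = k / ρ / 2 := by field_simp
      _ ≤ (-E) / 2 := by
          have : k / ρ ≤ -E := by
            rw [div_le_iff₀ hX]; linarith
          linarith
  have f4 : (-E) / 2 ≤ m a * m b / r := by linarith
  rw [le_div_iff₀ hr0] at f4
  rw [le_div_iff₀ (by linarith)]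
  linarith

/-- **escape above the parabolic energy** -/
theorem escMot (m : Fin 3 → ℝ) (hm : ∀ i, 0 < m i) (M : ℝ) (hM : ∑ i, m i = M) (E : ℝ)
    (hE : E < 0) (q v : ℝ → Cfg 3) (ψ τ : ℝ → ℝ) (hmot : Mot m E q v ψ τ)
    (hq : ∀ s, ∑ i, m i • q s i = 0) (hv : ∀ s, ∑ i, m i • v s i = 0)
    (a b c : Fin 3) (hab : a ≠ b) (hca : c ≠ a) (hcb : c ≠ b)
    (lam : ℝ) (hlam : lam = M / (m a + m b))
    (hP : 0 < inner ℝ (lam • q 0 c) (lam • v 0 c))
    (hr : ‖q 0 a - q 0 b‖ < ‖lam • q 0 c‖ / 2)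
    (hK : 40 * (m a * m b) * lam ≤ ‖lam • q 0 c‖ * (-E))
    (hh : 2 * M * (1 + 240 * (m a * m b / (‖lam • q 0 c‖ * (-E))) ^ 2) <
      ‖lam • v 0 c‖ ^ 2 * ‖lam • q 0 c‖) :
    ∀ s, 0 ≤ s → ‖lam • q 0 c‖ ^ 2 + 2 * inner ℝ (lam • q 0 c) (lam • v 0 c) * τ s ≤
      ‖lam • q s c‖ ^ 2 := by
  have hma := hm a
  have hmb := hm b
  have hmc := hm c
  have hMs : m a + m b + m c = M := by
    rw [← hM, sum3 m a b c hab hca hcb]; ring
  have hM0 : 0 < M := by rw [← hMs]; positivity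
  have hlam1 : 1 ≤ lam := by
    rw [hlam, le_div_iff₀ (by positivity)]; linarith
  have hlam0 : 0 < lam := by linarith
  have hE' : 0 < -E := by linarith
  have hX0 : 0 < ‖lam • q 0 c‖ := by
    have := norm_nonneg (q 0 a - q 0 b)
    linarith
  have hXd : ∀ s, HasDerivAt (fun s => lam • q s c) (ψ s • (lam • v s c)) s := fun s => by
    rw [smul_comm]
    exact (hmot.qd s c).const_smul lam
  have hVd : ∀ s, HasDerivAt (fun s => lam • v s c) (ψ s • (lam • acc m (q s) c)) s := fun s => by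
    rw [smul_comm]
    exact (hmot.vd s c).const_smul lam
  have hsq : ∀ s, Real.sqrt (‖lam • q s c‖ ^ 2) = ‖lam • q s c‖ := fun s =>
    Real.sqrt_sq (norm_nonneg _)
  have hsv : ∀ s, Real.sqrt (‖lam • v s c‖ ^ 2) = ‖lam • v s c‖ := fun s =>
    Real.sqrt_sq (norm_nonneg _)
  have hqc : Continuous fun s => ‖q s a - q s b‖ := by
    have h1 : ∀ i, Continuous fun s => q s i := fun i =>
      continuous_iff_continuousAt.mpr fun t => (hmot.qd t i).continuousAt
    exact ((h1 a).sub (h1 b)).norm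
  have hKc : m a * m b * m c / (m a + m b) ≤ 40 * (m a * m b) * lam := by
    have : m c ≤ 40 * M := by linarith
    calc m a * m b * m c / (m a + m b) ≤ m a * m b * (40 * M) / (m a + m b) := by gcongr
      _ = _ := by rw [hlam]; ring
  have key := escAbs3 (fun s => ‖lam • q s c‖ ^ 2) (fun s => inner ℝ (lam • q s c) (lam • v s c))
    (fun s => ‖lam • v s c‖ ^ 2) (fun s => inner ℝ (lam • q s c) (lam • acc m (q s) c))
    (fun s => inner ℝ (lam • v s c) (lam • acc m (q s) c)) (fun s => ‖q s a - q s b‖) ψ τ M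
    (2 * (m a * m b) / (-E)) hM0 (by positivity)
    (fun s => by
      refine (hXd s).norm_sq.congr_deriv ?_
      rw [inner_smul_right])
    (fun s => by
      refine ((hXd s).inner ℝ (hVd s)).congr_deriv ?_
      rw [inner_smul_right (lam • q s c) (lam • acc m (q s) c) (ψ s),
        real_inner_smul_left (lam • v s c) (lam • v s c) (ψ s), real_inner_self_eq_norm_sq]
      ring)
    (fun s => by
      refine (hVd s).norm_sq.congr_deriv ?_
      rw [inner_smul_right])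
    hmot.τd hmot.τ0 hmot.cpos hqc
    (fun s => by
      have h1 := abs_real_inner_le_norm (lam • q s c) (lam • v s c)
      rw [← sq_abs, ← mul_pow]
      exact pow_le_pow_left₀ (abs_nonneg _) h1 2)
    (fun s hW _ hrs => by
      simp only [hsq] at hrs ⊢
      have hX : 0 < ‖lam • q s c‖ := by
        rcases eq_or_lt_of_le (norm_nonneg (lam • q s c)) with h | h
        · simp only [← h] at hW; norm_num at hW
        · exact h
      obtain ⟨k1, -⟩ := accQ m hm M hM (q s) (hq s) a b c hab hca hcb lam hlam hX hrs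
      have e1 : inner ℝ (lam • q s c) (lam • acc m (q s) c) =
          inner ℝ (lam • q s c) (lam • acc m (q s) c + (M / ‖lam • q s c‖ ^ 3) • (lam • q s c)) -
            M / ‖lam • q s c‖ := by
        rw [inner_add_right, inner_smul_right (lam • q s c) (lam • q s c),
          real_inner_self_eq_norm_sq]
        field_simp
        ring
      have e2 := abs_real_inner_le_norm (lam • q s c)
        (lam • acc m (q s) c + (M / ‖lam • q s c‖ ^ 3) • (lam • q s c))
      have e3 := neg_abs_le (inner ℝ (lam • q s c)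
        (lam • acc m (q s) c + (M / ‖lam • q s c‖ ^ 3) • (lam • q s c)))
      have e4 : ‖lam • q s c‖ *
          ‖lam • acc m (q s) c + (M / ‖lam • q s c‖ ^ 3) • (lam • q s c)‖ ≤
          ‖lam • q s c‖ * (10 * M * ‖q s a - q s b‖ ^ 2 / ‖lam • q s c‖ ^ 4) := by gcongr
      have e5 : ‖lam • q s c‖ * (10 * M * ‖q s a - q s b‖ ^ 2 / ‖lam • q s c‖ ^ 4) =
          10 * M * ‖q s a - q s b‖ ^ 2 / ‖lam • q s c‖ ^ 3 := by field_simp
      rw [e1]
      linarith)
    (fun s hW hrs => by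
      simp only [hsq, hsv] at hrs ⊢
      have hX : 0 < ‖lam • q s c‖ := by
        rcases eq_or_lt_of_le (norm_nonneg (lam • q s c)) with h | h
        · simp only [← h] at hW; norm_num at hW
        · exact h
      obtain ⟨k1, -⟩ := accQ m hm M hM (q s) (hq s) a b c hab hca hcb lam hlam hX hrs
      have e1 : inner ℝ (lam • v s c) (lam • acc m (q s) c) +
          M * inner ℝ (lam • q s c) (lam • v s c) / ‖lam • q s c‖ ^ 3 =
          inner ℝ (lam • v s c)
            (lam • acc m (q s) c + (M / ‖lam • q s c‖ ^ 3) • (lam • q s c)) := by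
        rw [inner_add_right, inner_smul_right (lam • v s c) (lam • q s c),
          real_inner_comm (lam • q s c) (lam • v s c)]
        ring
      rw [e1]
      refine (abs_real_inner_le_norm _ _).trans ?_
      gcongr)
    (fun s => norm_nonneg _)
    (fun s hW hrs hV => by
      simp only [hsq] at hrs hV
      have hX : ‖lam • q 0 c‖ ≤ ‖lam • q s c‖ := le_of_sq_le_sq hW (norm_nonneg _)
      refine tight m hm M hM E hE (q s) (v s) (hq s) (hv s) (hmot.en s) a b c hab hca hcb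
        (hmot.ne s a b hab) lam hlam (hX0.trans_le hX) hrs ?_ hV
      have : ‖lam • q 0 c‖ * (-E) ≤ ‖lam • q s c‖ * (-E) := by gcongr
      linarith)
    (by positivity) hP (by simp only [hsq]; exact hr)
    (by
      simp only [hsq]
      rw [← mul_div_assoc, div_le_iff₀ hE']
      have : 40 * (m a * m b) * 1 ≤ 40 * (m a * m b) * lam := by gcongr
      linarith)
    (by
      simp only [hsq]
      obtain ⟨ρ, hρ⟩ : ∃ ρ, ρ = ‖lam • q 0 c‖ := ⟨_, rfl⟩
      rw [← hρ] at hh hX0 ⊢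
      obtain ⟨V, hVV⟩ : ∃ V, V = ‖lam • v 0 c‖ ^ 2 := ⟨_, rfl⟩
      rw [← hVV] at hh ⊢
      have e1 : 60 * M * (2 * (m a * m b) / (-E)) ^ 2 / ρ ^ 3 + M / ρ =
          2 * M * (1 + 240 * (m a * m b / (ρ * (-E))) ^ 2) / (2 * ρ) := by
        field_simp
        ring
      have e2 : 2 * M * (1 + 240 * (m a * m b / (ρ * (-E))) ^ 2) / (2 * ρ) < V * ρ / (2 * ρ) := by
        gcongr
      have e3 : V * ρ / (2 * ρ) = V / 2 := by field_simp
      linarith)
  exact key

end Pool.Agent.H239.NBS
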