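import Pool.Agent.H239.NBS.Mot3

set_option autoImplicit false

/-! Points with outer energy above the parabolic one are wandering. -/

namespace Pool.Agent.H239.NBS

open Set Filter Topology Pool.Agent.Y516.NW Pool.Agent.Y438.NW Pool.Agent.T6.H53.NB

theorem wandS (m : Fin 3 → ℝ) (hm : ∀ i, 0 < m i) (M : ℝ) (hM : ∑ i, m i = M) (E : ℝ)
    (hE : E < 0) (ψ : Cfg 3 × Cfg 3 → ℝ) (φ : ℝ → Cfg 3 × Cfg 3 → Cfg 3 × Cfg 3)
    (hφ : IsFl m E ψ φ) (x : Cfg 3 × Cfg 3) (hx : x ∈ Surf m E) (a b c : Fin 3) (hab : a ≠ b)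
    (hca : c ≠ a) (hcb : c ≠ b) (lam : ℝ) (hlam : lam = M / (m a + m b))
    (hP : 0 < inner ℝ (lam • x.1 c) (lam • vel m x c))
    (hr : ‖x.1 a - x.1 b‖ < ‖lam • x.1 c‖ / 2)
    (hK : 40 * (m a * m b) * lam < ‖lam • x.1 c‖ * (-E))
    (hh : 2 * M * (1 + 240 * (m a * m b / (‖lam • x.1 c‖ * (-E))) ^ 2) <
      ‖lam • vel m x c‖ ^ 2 * ‖lam • x.1 c‖) :
    ¬ NonW (Surf m E) φ x := by
  intro hNW
  have hma := hm a
  have hmb := hm b
  have hM0 : 0 < M := by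
    rw [← hM]; exact Finset.sum_pos (fun i _ => hm i) ⟨0, Finset.mem_univ _⟩
  have hlam0 : 0 < lam := by rw [hlam]; positivity
  have hE' : 0 < -E := by linarith
  have hX0 : 0 < ‖lam • x.1 c‖ := by
    have := norm_nonneg (x.1 a - x.1 b)
    linarith
  obtain ⟨V1, hV1o, hxV1, s1, hs1, δ, hδ, hloc⟩ := Pool.Agent.Y275.NW.loc (Cfg 3 × Cfg 3) (Free 3)
    (Surf m E) (Z m ψ) ψ φ free_open (surf_free m E) (Z_cont m ψ hφ.cont) hφ.cont hφ.pos hφ.flow x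
    (surf_free m E hx)
  obtain ⟨p, hp⟩ : ∃ p, p = inner ℝ (lam • x.1 c) (lam • vel m x c) / 2 := ⟨_, rfl⟩
  have hp0 : 0 < p := by rw [hp]; linarith
  obtain ⟨κ, hκ⟩ : ∃ κ, κ = 2 * p * δ := ⟨_, rfl⟩
  have hκ0 : 0 < κ := by rw [hκ]; positivity
  -- continuity
  have cq : ∀ i, Continuous fun y : Cfg 3 × Cfg 3 => y.1 i := fun i =>
    (continuous_apply i).comp continuous_fst
  have cv : ∀ i, Continuous fun y : Cfg 3 × Cfg 3 => vel m y i := fun i =>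
    (((continuous_apply i).comp continuous_snd).const_smul ((m i)⁻¹))
  have cX : Continuous fun y : Cfg 3 × Cfg 3 => lam • y.1 c := (cq c).const_smul lam
  have cV : Continuous fun y : Cfg 3 × Cfg 3 => lam • vel m y c := (cv c).const_smul lam
  have cP : Continuous fun y : Cfg 3 × Cfg 3 => inner ℝ (lam • y.1 c) (lam • vel m y c) :=
    cX.inner cV
  -- a neighbourhood
  have ev1 : ∀ᶠ y in 𝓝 x, p < inner ℝ (lam • y.1 c) (lam • vel m y c) :=
    cP.continuousAt.eventually_const_lt (by rw [hp]; linarith)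
  have ev2 : ∀ᶠ y in 𝓝 x, ‖y.1 a - y.1 b‖ < ‖lam • y.1 c‖ / 2 :=
    (((cq a).sub (cq b)).norm.continuousAt).eventually_lt (cX.norm.div_const 2).continuousAt hr
  have ev3 : ∀ᶠ y in 𝓝 x, 40 * (m a * m b) * lam < ‖lam • y.1 c‖ * (-E) :=
    (cX.norm.mul continuous_const).continuousAt.eventually_const_lt hK
  have ev4 : ∀ᶠ y in 𝓝 x, 2 * M * (1 + 240 * (m a * m b / (‖lam • y.1 c‖ * (-E))) ^ 2) <
      ‖lam • vel m y c‖ ^ 2 * ‖lam • y.1 c‖ := by
    refine ContinuousAt.eventually_lt ?_ ((cV.norm.pow 2).mul cX.norm).continuousAt hh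
    refine continuousAt_const.mul (continuousAt_const.add (continuousAt_const.mul
      (ContinuousAt.pow (continuousAt_const.div (cX.norm.mul continuous_const).continuousAt ?_) 2)))
    exact (mul_pos hX0 hE').ne'
  have ev5 : ∀ᶠ y in 𝓝 x, |‖lam • y.1 c‖ ^ 2 - ‖lam • x.1 c‖ ^ 2| < κ / 2 :=
    (((cX.norm.pow 2).sub continuous_const).abs).continuousAt.eventually_lt_const (by
      show |‖lam • x.1 c‖ ^ 2 - ‖lam • x.1 c‖ ^ 2| < κ / 2
      rw [sub_self, abs_zero]; positivity)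
  have ev6 : ∀ᶠ y in 𝓝 x, y ∈ V1 := hV1o.mem_nhds hxV1
  obtain ⟨V, hVs, hVo, hxV⟩ := mem_nhds_iff.1
    (((((ev1.and ev2).and ev3).and ev4).and ev5).and ev6)
  obtain ⟨t, ht, y, ⟨hyV, hyS⟩, hφy⟩ := hNW V hVo hxV s1
  obtain ⟨⟨⟨⟨⟨h1, h2⟩, h3⟩, h4⟩, h5⟩, h6⟩ := hVs hyV
  obtain ⟨-, h7⟩ := (hVs hφy).1
  have hfl := hφ.flow y hyS
  have h0 : φ 0 y = y := hfl.1
  have hτ0 : tau ψ φ y 0 = 0 := by unfold tau; simp
  obtain ⟨τ', hmot'⟩ := mot_of_flow m hm E ψ φ hφ y hyS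
  have hmot : Mot m E (fun t => (φ t y).1) (fun t => vel m (φ t y)) (fun t => ψ (φ t y))
      (tau ψ φ y) :=
    ⟨hτ0, fun s => tau_der m E ψ φ hφ y hyS s, hmot'.cpos, hmot'.qd, hmot'.vd, hmot'.ne, hmot'.en⟩
  have key := escMot m hm M hM E hE (fun t => (φ t y).1) (fun t => vel m (φ t y))
    (fun t => ψ (φ t y)) (tau ψ φ y) hmot (fun s => (hfl.2 s).1.2.1)
    (fun s => surf_mom m hm E _ (hfl.2 s).1) a b c hab hca hcb lam hlam
    (by simp only [h0]; exact hp0.trans h1) (by simp only [h0]; exact h2)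
    (by simp only [h0]; exact h3.le) (by simp only [h0]; exact h4) t (hs1.le.trans ht.le)
  simp only [h0] at key
  have hτt : δ ≤ tau ψ φ y t := hloc y ⟨h6, hyS⟩ (tau ψ φ y) hτ0
    (fun s => tau_der m E ψ φ hφ y hyS s) t ht.le
  have e1 : κ ≤ 2 * inner ℝ (lam • y.1 c) (lam • vel m y c) * tau ψ φ y t := by
    rw [hκ]
    have hin : 0 ≤ 2 * inner ℝ (lam • y.1 c) (lam • vel m y c) := by linarith
    have hin2 : 2 * p ≤ 2 * inner ℝ (lam • y.1 c) (lam • vel m y c) := by linarith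
    exact mul_le_mul hin2 hτt hδ.le hin
  have h5' : |‖lam • y.1 c‖ ^ 2 - ‖lam • x.1 c‖ ^ 2| < κ / 2 := h5
  have h7' : |‖lam • (φ t y).1 c‖ ^ 2 - ‖lam • x.1 c‖ ^ 2| < κ / 2 := h7
  rw [abs_lt] at h5' h7'
  linarith [h5'.1, h5'.2, h7'.1, h7'.2]

theorem wandN (m : Fin 3 → ℝ) (hm : ∀ i, 0 < m i) (M : ℝ) (hM : ∑ i, m i = M) (E : ℝ)
    (hE : E < 0) (ψ : Cfg 3 × Cfg 3 → ℝ)
    (hψ : ContDiffOn ℝ ((⊤ : ℕ∞) : WithTop ℕ∞) ψ (Free 3))
    (φ : ℝ → Cfg 3 × Cfg 3 → Cfg 3 × Cfg 3)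
    (hφ : IsFl m E ψ φ) (x : Cfg 3 × Cfg 3) (hx : x ∈ Surf m E) (a b c : Fin 3) (hab : a ≠ b)
    (hca : c ≠ a) (hcb : c ≠ b) (lam : ℝ) (hlam : lam = M / (m a + m b))
    (hP : 0 ≤ inner ℝ (lam • x.1 c) (lam • vel m x c))
    (hr : ‖x.1 a - x.1 b‖ < ‖lam • x.1 c‖ / 2)
    (hK : 40 * (m a * m b) * lam < ‖lam • x.1 c‖ * (-E))
    (hh : 2 * M * (1 + 240 * (m a * m b / (‖lam • x.1 c‖ * (-E))) ^ 2) <
      ‖lam • vel m x c‖ ^ 2 * ‖lam • x.1 c‖) :
    ¬ NonW (Surf m E) φ x := by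
  rcases eq_or_lt_of_le hP with hP0 | hP0
  swap
  · exact wandS m hm M hM E hE ψ φ hφ x hx a b c hab hca hcb lam hlam hP0 hr hK hh
  intro hNW
  have hma := hm a
  have hmb := hm b
  have hmc := hm c
  have hMs : m a + m b + m c = M := by
    rw [← hM, sum3 m a b c hab hca hcb]; ring
  have hM0 : 0 < M := by
    rw [← hM]; exact Finset.sum_pos (fun i _ => hm i) ⟨0, Finset.mem_univ _⟩
  have hlam1 : 1 ≤ lam := by
    rw [hlam, le_div_iff₀ (by positivity)]; linarith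
  have hE' : 0 < -E := by linarith
  have hX0 : 0 < ‖lam • x.1 c‖ := by
    have := norm_nonneg (x.1 a - x.1 b)
    linarith
  obtain ⟨τ, hmot⟩ := mot_of_flow m hm E ψ φ hφ x hx
  have h0 : φ 0 x = x := (hφ.flow x hx).1
  have hcont : Continuous fun t => φ t x :=
    continuous_iff_continuousAt.mpr fun t => ((hφ.flow x hx).2 t).2.continuousAt
  have hXd : HasDerivAt (fun s => lam • (φ s x).1 c) (ψ x • (lam • vel m x c)) 0 := by
    have := (hmot.qd 0 c).const_smul lam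
    simp only [h0] at this
    rw [smul_comm]
    exact this
  have hVd : HasDerivAt (fun s => lam • vel m (φ s x) c) (ψ x • (lam • acc m x.1 c)) 0 := by
    have := (hmot.vd 0 c).const_smul lam
    simp only [h0] at this
    rw [smul_comm]
    exact this
  have hPd : HasDerivAt (fun s => inner ℝ (lam • (φ s x).1 c) (lam • vel m (φ s x) c))
      (ψ x * (‖lam • vel m x c‖ ^ 2 + inner ℝ (lam • x.1 c) (lam • acc m x.1 c))) 0 := by
    refine (hXd.inner ℝ hVd).congr_deriv ?_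
    simp only [h0]
    rw [inner_smul_right (lam • x.1 c) (lam • acc m x.1 c) (ψ x),
      real_inner_smul_left (lam • vel m x c) (lam • vel m x c) (ψ x), real_inner_self_eq_norm_sq]
    ring
  -- the derivative is positive
  have hV : 2 * M / ‖lam • x.1 c‖ < ‖lam • vel m x c‖ ^ 2 := by
    rw [div_lt_iff₀ hX0]
    refine lt_of_le_of_lt ?_ hh
    have : 0 ≤ 240 * (m a * m b / (‖lam • x.1 c‖ * (-E))) ^ 2 := by positivity
    nlinarith
  have hKc : m a * m b * m c / (m a + m b) ≤ 40 * (m a * m b) * lam := by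
    have : m c ≤ 40 * M := by linarith
    calc m a * m b * m c / (m a + m b) ≤ m a * m b * (40 * M) / (m a + m b) := by gcongr
      _ = _ := by rw [hlam]; ring
  have hen := hmot.en 0
  simp only [h0] at hen
  have hvs := surf_mom m hm E x hx
  have hr2 := tight m hm M hM E hE x.1 (vel m x) hx.2.1 hvs hen a b c hab hca hcb
    (hx.1 a b hab) lam hlam hX0 hr.le (hKc.trans hK.le) hV.le
  have hrR : 20 * ‖x.1 a - x.1 b‖ ≤ ‖lam • x.1 c‖ := by
    have e1 : 20 * ‖x.1 a - x.1 b‖ ≤ 20 * (2 * (m a * m b) / (-E)) := by gcongr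
    refine e1.trans ?_
    rw [← mul_div_assoc, div_le_iff₀ hE']
    have : 40 * (m a * m b) * 1 ≤ 40 * (m a * m b) * lam := by gcongr
    linarith
  obtain ⟨k1, -⟩ := accQ m hm M hM x.1 hx.2.1 a b c hab hca hcb lam hlam hX0 hr.le
  have hA : -(2 * M / ‖lam • x.1 c‖) ≤ inner ℝ (lam • x.1 c) (lam • acc m x.1 c) := by
    have e1 : inner ℝ (lam • x.1 c) (lam • acc m x.1 c) =
        inner ℝ (lam • x.1 c) (lam • acc m x.1 c + (M / ‖lam • x.1 c‖ ^ 3) • (lam • x.1 c)) -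
          M / ‖lam • x.1 c‖ := by
      rw [inner_add_right, inner_smul_right (lam • x.1 c) (lam • x.1 c),
        real_inner_self_eq_norm_sq]
      field_simp
      ring
    have e2 := abs_real_inner_le_norm (lam • x.1 c)
      (lam • acc m x.1 c + (M / ‖lam • x.1 c‖ ^ 3) • (lam • x.1 c))
    have e3 := neg_abs_le (inner ℝ (lam • x.1 c)
      (lam • acc m x.1 c + (M / ‖lam • x.1 c‖ ^ 3) • (lam • x.1 c)))
    have e4 : ‖lam • x.1 c‖ *
        ‖lam • acc m x.1 c + (M / ‖lam • x.1 c‖ ^ 3) • (lam • x.1 c)‖ ≤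
        ‖lam • x.1 c‖ * (10 * M * ‖x.1 a - x.1 b‖ ^ 2 / ‖lam • x.1 c‖ ^ 4) := by gcongr
    have e5 : ‖lam • x.1 c‖ * (10 * M * ‖x.1 a - x.1 b‖ ^ 2 / ‖lam • x.1 c‖ ^ 4) ≤
        M / ‖lam • x.1 c‖ := by
      have f1 : (20 * ‖x.1 a - x.1 b‖) ^ 2 ≤ ‖lam • x.1 c‖ ^ 2 :=
        pow_le_pow_left₀ (by positivity) hrR 2
      have f2 : 10 * ‖x.1 a - x.1 b‖ ^ 2 ≤ ‖lam • x.1 c‖ ^ 2 := by
        nlinarith [sq_nonneg ‖x.1 a - x.1 b‖]
      calc ‖lam • x.1 c‖ * (10 * M * ‖x.1 a - x.1 b‖ ^ 2 / ‖lam • x.1 c‖ ^ 4) =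
            M * (10 * ‖x.1 a - x.1 b‖ ^ 2) / ‖lam • x.1 c‖ ^ 3 := by field_simp
        _ ≤ M * ‖lam • x.1 c‖ ^ 2 / ‖lam • x.1 c‖ ^ 3 := by gcongr
        _ = _ := by field_simp
    have e6 : 2 * M / ‖lam • x.1 c‖ = M / ‖lam • x.1 c‖ + M / ‖lam • x.1 c‖ := by ring
    rw [e1]
    linarith
  have hψx : 0 < ψ x := hφ.pos x (surf_free m E hx)
  have hdpos : 0 < ψ x * (‖lam • vel m x c‖ ^ 2 +
      inner ℝ (lam • x.1 c) (lam • acc m x.1 c)) := by
    refine mul_pos hψx ?_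
    linarith
  -- continuity
  have cq : ∀ i, Continuous fun y : Cfg 3 × Cfg 3 => y.1 i := fun i =>
    (continuous_apply i).comp continuous_fst
  have cv : ∀ i, Continuous fun y : Cfg 3 × Cfg 3 => vel m y i := fun i =>
    (((continuous_apply i).comp continuous_snd).const_smul ((m i)⁻¹))
  have cX : Continuous fun y : Cfg 3 × Cfg 3 => lam • y.1 c := (cq c).const_smul lam
  have cV : Continuous fun y : Cfg 3 × Cfg 3 => lam • vel m y c := (cv c).const_smul lam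
  have ev2 : ∀ᶠ y in 𝓝 x, ‖y.1 a - y.1 b‖ < ‖lam • y.1 c‖ / 2 :=
    (((cq a).sub (cq b)).norm.continuousAt).eventually_lt (cX.norm.div_const 2).continuousAt hr
  have ev3 : ∀ᶠ y in 𝓝 x, 40 * (m a * m b) * lam < ‖lam • y.1 c‖ * (-E) :=
    (cX.norm.mul continuous_const).continuousAt.eventually_const_lt hK
  have ev4 : ∀ᶠ y in 𝓝 x, 2 * M * (1 + 240 * (m a * m b / (‖lam • y.1 c‖ * (-E))) ^ 2) <
      ‖lam • vel m y c‖ ^ 2 * ‖lam • y.1 c‖ := by
    refine ContinuousAt.eventually_lt ?_ ((cV.norm.pow 2).mul cX.norm).continuousAt hh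
    refine continuousAt_const.mul (continuousAt_const.add (continuousAt_const.mul
      (ContinuousAt.pow (continuousAt_const.div (cX.norm.mul continuous_const).continuousAt ?_) 2)))
    exact (mul_pos hX0 hE').ne'
  have evx : ∀ᶠ s in 𝓝[>] (0:ℝ), (‖(φ s x).1 a - (φ s x).1 b‖ < ‖lam • (φ s x).1 c‖ / 2 ∧
      40 * (m a * m b) * lam < ‖lam • (φ s x).1 c‖ * (-E)) ∧
      2 * M * (1 + 240 * (m a * m b / (‖lam • (φ s x).1 c‖ * (-E))) ^ 2) <
      ‖lam • vel m (φ s x) c‖ ^ 2 * ‖lam • (φ s x).1 c‖ := by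
    have h1 : Tendsto (fun s => φ s x) (𝓝 0) (𝓝 x) := by
      have := hcont.tendsto 0
      rwa [h0] at this
    exact (h1.eventually ((ev2.and ev3).and ev4)).filter_mono nhdsWithin_le_nhds
  have evs : ∀ᶠ s in 𝓝[>] (0:ℝ), 0 <
      slope (fun s => inner ℝ (lam • (φ s x).1 c) (lam • vel m (φ s x) c)) 0 s := by
    have h1 := (hasDerivAt_iff_tendsto_slope.1 hPd).eventually_const_lt hdpos
    exact h1.filter_mono (nhdsWithin_mono _ (fun y hy => ne_of_gt hy))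
  obtain ⟨s, ⟨⟨⟨hs1, hs2⟩, hs3⟩, hs4⟩, hs0⟩ := ((evx.and evs).and self_mem_nhdsWithin).exists
  have hs0' : 0 < s := hs0
  have hPs : 0 < inner ℝ (lam • (φ s x).1 c) (lam • vel m (φ s x) c) := by
    rw [slope_def_field] at hs4
    simp only [h0, sub_zero] at hs4
    have h1 := (div_pos_iff_of_pos_right hs0').1 hs4
    linarith
  exact wandS m hm M hM E hE ψ φ hφ (φ s x) ((hφ.flow x hx).2 s).1 a b c hab hca hcb lam hlam
    hPs hs1 hs2 hs3 (nonw m E ψ hψ φ hφ x hx hNW s)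

/-- **the outer energy of a nonwandering point** -/
theorem outer (m : Fin 3 → ℝ) (hm : ∀ i, 0 < m i) (M : ℝ) (hM : ∑ i, m i = M) (E : ℝ)
    (hE : E < 0) (ψ : Cfg 3 × Cfg 3 → ℝ)
    (hψ : ContDiffOn ℝ ((⊤ : ℕ∞) : WithTop ℕ∞) ψ (Free 3))
    (φ : ℝ → Cfg 3 × Cfg 3 → Cfg 3 × Cfg 3)
    (hφ : IsFl m E ψ φ) (x : Cfg 3 × Cfg 3) (hx : x ∈ Surf m E) (hNW : NonW (Surf m E) φ x)
    (a b c : Fin 3) (hab : a ≠ b)
    (hca : c ≠ a) (hcb : c ≠ b) (lam : ℝ) (hlam : lam = M / (m a + m b))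
    (hr : ‖x.1 a - x.1 b‖ < ‖lam • x.1 c‖ / 2)
    (hK : 40 * (m a * m b) * lam < ‖lam • x.1 c‖ * (-E)) :
    ‖lam • vel m x c‖ ^ 2 * ‖lam • x.1 c‖ ≤
      2 * M * (1 + 240 * (m a * m b / (‖lam • x.1 c‖ * (-E))) ^ 2) := by
  by_contra hcon
  push Not at hcon
  rcases le_total 0 (inner ℝ (lam • x.1 c) (lam • vel m x c)) with h | h
  · exact wandN m hm M hM E hE ψ hψ φ hφ x hx a b c hab hca hcb lam hlam h hr hK hcon hNW
  · have hv : vel m (rev x) c = -vel m x c := by simp [rev, vel]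
    have hq : (rev x).1 = x.1 := rfl
    refine wandN m hm M hM E hE (fun y => ψ (rev y)) (rev_smooth ψ hψ)
      (fun t x => rev (φ (-t) (rev x))) (rev_fl m E ψ φ hφ) (rev x) (rev_surf m E x hx) a b c hab
      hca hcb lam hlam ?_ hr hK ?_ (rev_nonw m E ψ hψ φ hφ x hNW)
    · rw [hv, hq, smul_neg, inner_neg_right]
      linarith
    · rw [hv, hq, smul_neg, norm_neg]
      exact hcon

end Pool.Agent.H239.NBS
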